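import Pool.Agent.H373R2.T7.FundC

/-! The error terms of the primes in systems of classes, summed over all moduli up to `X ^ (1/2 - δ)`. -/

set_option autoImplicit false

namespace Pool.Agent.J4H70.PA

open Finset
open Pool.Agent.H373R2.T7

open Classical in
/-- the error term of the set `T` of primes -/
noncomputable def er (Q : ℕ → ℕ → Prop) (X : ℕ) (T : Finset ℕ) : ℝ :=
  |∑ n ∈ (Icc 1 X).filter (fun n : ℕ => ∀ p ∈ T, ¬ p ∣ n ∧ Q p n), ArithmeticFunction.vonMangoldt n -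
      lam1 X * ∏ p ∈ T, ((rhoA Q p : ℝ) / (p - 1 : ℝ))|

/-- the bound for one set of primes -/
theorem er_le (Q : ℕ → ℕ → Prop) {c : ℕ} (hQ : PerA Q c) (X z r : ℕ) (S : Finset ℕ) (hS : S ⊆ pz z)
    (hd : ∏ p ∈ S, p ≤ X) (hL : 1 ≤ Real.log X) :
    er Q X S ≤ EfA Q X z r (∏ p ∈ S, p) + Real.exp (-(r : ℝ)) * (8 * X * Real.log X) *
      ((3 * c : ℝ) ^ (∏ p ∈ S, p).primeFactors.card / (Nat.totient (∏ p ∈ S, p) : ℝ)) := by
  have hSp : ∀ p ∈ S, p.Prime := fun p hp => (mem_pz.1 (hS hp)).2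
  have hω : (∏ p ∈ S, p).primeFactors.card = S.card := by rw [primeFactors_prod' S hSp]
  rw [hω]
  unfold er
  rcases le_or_gt S.card r with hr | hr
  · refine (cls_err Q hQ X z r S hS hr).trans ?_
    have h2 := Real.log_natCast_nonneg X
    have : 0 ≤ Real.exp (-(r : ℝ)) * (8 * X * Real.log X) * ((3 * c : ℝ) ^ S.card / (Nat.totient (∏ p ∈ S, p) : ℝ)) := by
      positivity
    linarith
  · refine (cls_err Q hQ X z S.card S hS le_rfl).trans ?_
    refine (cls_triv Q hQ X z S.card S hS le_rfl hd hL).trans ?_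
    have h1 := EfA_nonneg Q X z r (∏ p ∈ S, p)
    have h3 : (c : ℝ) ^ S.card ≤ Real.exp (-(r : ℝ)) * (3 * c : ℝ) ^ S.card := by
      rw [mul_pow, ← mul_assoc]
      apply le_mul_of_one_le_left (by positivity)
      have h4 : Real.exp (r : ℝ) ≤ 3 ^ S.card := by
        calc Real.exp (r : ℝ) ≤ Real.exp (S.card : ℝ) := Real.exp_le_exp.2 (by exact_mod_cast hr.le)
          _ = Real.exp 1 ^ S.card := by rw [← Real.exp_nat_mul, mul_one]
          _ ≤ 3 ^ S.card := pow_le_pow_left₀ (Real.exp_pos _).le (by have := Real.exp_one_lt_d9; linarith) _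
      calc (1 : ℝ) = Real.exp (-(r : ℝ)) * Real.exp (r : ℝ) := by rw [← Real.exp_add]; simp
        _ ≤ _ := mul_le_mul_of_nonneg_left h4 (Real.exp_pos _).le
    have h2 := Real.log_natCast_nonneg X
    calc (c : ℝ) ^ S.card * (8 * X * Real.log X / (Nat.totient (∏ p ∈ S, p) : ℝ)) ≤
          (Real.exp (-(r : ℝ)) * (3 * c : ℝ) ^ S.card) * (8 * X * Real.log X / (Nat.totient (∏ p ∈ S, p) : ℝ)) :=
            mul_le_mul_of_nonneg_right h3 (by positivity)
      _ = Real.exp (-(r : ℝ)) * (8 * X * Real.log X) * ((3 * c : ℝ) ^ S.card / (Nat.totient (∏ p ∈ S, p) : ℝ)) := by ring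
      _ ≤ _ := by linarith

/-- **the sum of the error terms** -/
theorem er_sum (c : ℕ) (hc : 1 ≤ c) (U : ℕ) : ∃ X0 B : ℕ, ∀ X : ℕ, X0 ≤ X → ∀ D : ℕ,
    (D : ℝ) ^ 2 ≤ X / Real.log X ^ B → ∀ Q : ℕ → ℕ → Prop, PerA Q c → ∀ P : Finset ℕ, (∀ p ∈ P, p.Prime) →
    ∑ T ∈ P.powerset.filter (fun T : Finset ℕ => ∏ p ∈ T, p ≤ D), er Q X T ≤ X / Real.log X ^ U := by
  obtain ⟨k, hk⟩ := Pool.Agent.H398R2.BV.sum_pow_omega_div_totient (3 * (c : ℝ)) (by
    have : (1 : ℝ) ≤ c := by exact_mod_cast hc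
    linarith)
  obtain ⟨m, hm⟩ : ∃ m, m = U + 2 ^ k + 3 := ⟨_, rfl⟩
  obtain ⟨B, X0, hBV⟩ := H343E.unsmoothed (m * c + 1 + U + 1)
  obtain ⟨n2, h2⟩ := ev_L' (c + 12)
  refine ⟨max (max ⌈X0⌉₊ n2) 2, B, fun X hX D hD Q hQ P hP => ?_⟩
  have c1 : ⌈X0⌉₊ ≤ X := (le_max_left _ _).trans ((le_max_left _ _).trans hX)
  have c2 : n2 ≤ X := (le_max_right _ _).trans ((le_max_left _ _).trans hX)
  have c3 : 2 ≤ X := (le_max_right _ _).trans hX
  have a2 := h2 X c2
  have hX0 : X0 ≤ (X : ℝ) := (Nat.le_ceil _).trans (by exact_mod_cast c1)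
  have hXr : (2 : ℝ) ≤ X := by exact_mod_cast c3
  have hXp : (0 : ℝ) < X := by linarith
  obtain ⟨T, hT⟩ : ∃ T, T = Real.log X := ⟨_, rfl⟩
  rw [← hT] at a2 hD ⊢
  have hcr : (1 : ℝ) ≤ c := by exact_mod_cast hc
  have hT12 : 12 ≤ T := by linarith
  have hcT : (c : ℝ) ≤ T := by linarith
  have hT1 : 1 ≤ T := by linarith
  have hT0 : 0 < T := by linarith
  have hTB : 1 ≤ T ^ B := one_le_pow₀ hT1
  have hDX2 : (D : ℝ) ^ 2 ≤ X := hD.trans (div_le_self hXp.le hTB)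
  rcases Nat.eq_zero_or_pos D with hD0 | hD1
  · -- no moduli
    have : P.powerset.filter (fun T : Finset ℕ => ∏ p ∈ T, p ≤ D) = ∅ := by
      apply filter_eq_empty_iff.2
      intro S hS
      rw [mem_powerset] at hS
      have : 0 < ∏ p ∈ S, p := Nat.pos_of_ne_zero (prod_ne_zero_iff.2 fun p hp => (hP p (hS hp)).ne_zero)
      omega
    rw [this, sum_empty]
    positivity
  have hD1r : (1 : ℝ) ≤ D := by exact_mod_cast hD1
  have hDD : (D : ℝ) ≤ (D : ℝ) ^ 2 := by nlinarith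
  have hDX : D ≤ X := by exact_mod_cast hDD.trans hDX2
  obtain ⟨r, hr⟩ : ∃ r, r = ⌈(m : ℝ) * Real.log T⌉₊ := ⟨_, rfl⟩
  obtain ⟨hr1, hr2⟩ := num_r T m c hT1 hc hcT
  rw [← hr] at hr1 hr2
  obtain ⟨z, hz⟩ : ∃ z, z = ∑ p ∈ P, p := ⟨_, rfl⟩
  have hPz : P ⊆ pz z := by
    intro p hp
    rw [mem_pz, hz]
    exact ⟨single_le_sum (f := fun p => p) (fun _ _ => Nat.zero_le _) hp, hP p hp⟩
  have hA1 : 1 ≤ T ^ (m * c + 1) := one_le_pow₀ hT1
  have hbv := hBV X hX0 (T ^ (m * c + 1)) hA1 D (by rw [← hT]; exact hDD.trans hD) (by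
      rw [← hT]
      refine hD.trans ?_
      apply div_le_div_of_nonneg_right _ (by positivity)
      exact le_mul_of_one_le_left hXp.le hA1) (LSA Q z r) (LSA_fam Q hQ hc z r _ hr2)
  have hEf : ∑ d ∈ Icc 1 D, EfA Q X z r d ≤ T ^ (m * c + 1) * X / T ^ (m * c + 1 + U + 1) := by
    rw [← hT] at hbv
    refine le_trans (le_of_eq ?_) hbv
    apply sum_congr rfl
    intro d _
    unfold EfA
    apply sum_congr rfl
    intro b _
    rw [lamAP_eq, lam1_eq']
  have hlogD : 1 + Real.log (D : ℝ) ≤ T := by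
    have h6 := Real.log_le_log (by positivity) hDX2
    rw [Real.log_pow, ← hT] at h6
    push_cast at h6
    linarith
  have hlogD0 : 0 ≤ Real.log (D : ℝ) := Real.log_nonneg hD1r
  set f : ℕ → ℝ := fun d => EfA Q X z r d + Real.exp (-(r : ℝ)) * (8 * X * T) *
      ((3 * c : ℝ) ^ d.primeFactors.card / (Nat.totient d : ℝ)) with hf
  have hf0 : ∀ d, 0 ≤ f d := by
    intro d
    have h1 := EfA_nonneg Q X z r d
    have : 0 ≤ Real.exp (-(r : ℝ)) * (8 * X * T) * ((3 * c : ℝ) ^ d.primeFactors.card / (Nat.totient d : ℝ)) := by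
      positivity
    rw [hf]
    exact add_nonneg h1 this
  calc ∑ S ∈ P.powerset.filter (fun S : Finset ℕ => ∏ p ∈ S, p ≤ D), er Q X S ≤
      ∑ S ∈ P.powerset.filter (fun S : Finset ℕ => ∏ p ∈ S, p ≤ D), f (∏ p ∈ (∅ : Finset ℕ) ∪ S, p) := by
        apply sum_le_sum
        intro S hS
        rw [mem_filter, mem_powerset] at hS
        rw [empty_union]
        have h1 := er_le Q hQ X z r S (hS.1.trans hPz) (hS.2.trans hDX) (by rw [← hT]; exact hT1)
        rw [← hT] at h1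
        exact h1
    _ ≤ ∑ d ∈ Icc 1 ((∏ p ∈ (∅ : Finset ℕ), p) * D), f d :=
        sum_inj_le P ∅ hP (by simp) (disjoint_empty_left _) D f hf0
    _ = ∑ d ∈ Icc 1 D, EfA Q X z r d + Real.exp (-(r : ℝ)) * (8 * X * T) *
        ∑ d ∈ Icc 1 D, ((3 * c : ℝ) ^ d.primeFactors.card / (Nat.totient d : ℝ)) := by
        rw [prod_empty, one_mul, hf, sum_add_distrib, mul_sum]
    _ ≤ T ^ (m * c + 1) * X / T ^ (m * c + 1 + U + 1) + (1 / T ^ m) * (8 * X * T) * T ^ (2 ^ k) := by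
        apply add_le_add hEf
        apply mul_le_mul _ ((hk D).trans (pow_le_pow_left₀ (by linarith) hlogD _)) (sum_nonneg fun _ _ => by positivity)
          (by positivity)
        exact mul_le_mul_of_nonneg_right hr1 (by positivity)
    _ = X / T ^ U * (1 / T + 8 / T ^ 2) := by
        have e1 : T ^ (m * c + 1 + U + 1) = T ^ (m * c + 1) * (T ^ U * T) := by ring
        have e2 : T ^ m = T ^ U * T ^ (2 ^ k) * T ^ 3 := by rw [hm, pow_add, pow_add]
        rw [e1, e2]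
        field_simp
    _ ≤ X / T ^ U * 1 := by
        apply mul_le_mul_of_nonneg_left _ (by positivity)
        have h3 : 1 / T ≤ 1 / 12 := one_div_le_one_div_of_le (by norm_num) hT12
        have h4 : 8 / T ^ 2 ≤ 8 / 12 ^ 2 := by
          apply div_le_div_of_nonneg_left (by norm_num) (by norm_num)
          exact pow_le_pow_left₀ (by norm_num) hT12 2
        linarith
    _ = _ := mul_one _

end Pool.Agent.J4H70.PA
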