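import Pool.Agent.J4H70.PA.Mod
import Pool.Agent.H373R2.T7.PB3

/-! The second moment: few exceptional `N`, for arbitrary weights. -/

set_option autoImplicit false

namespace Pool.Agent.J4H70.PA

open Finset Filter Polynomial
open Pool.Agent.H373R2.T7
open Pool.Agent.H373R2.T7.TB (l1_one)

open Classical in
/-- the exceptional `N` for the weight `w` -/
noncomputable def EX (w : ℕ → ℝ) (z x U : ℕ) : Finset ℕ :=
  (Icc 1 x).filter (fun N : ℕ => (x : ℝ) / Real.log x ^ U <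
    |∑ t ∈ Icc 1 x, w t * (lamP ((N : ℤ) - t) - lamzI z ((N : ℤ) - t))|)

/-- few exceptions -/
theorem exc (U : ℕ) : ∃ B0 : ℕ, ∀ E : ℕ, ∃ x0 : ℕ, ∀ x : ℕ, x0 ≤ x → ∀ z : ℕ, Real.log x ^ B0 ≤ z →
    (z : ℝ) ≤ Real.log x ^ E → ∀ w : ℕ → ℝ, (∀ t ∈ Icc 1 x, |w t| ≤ Real.log x) →
    ((EX w z x U).card : ℝ) ≤ x / Real.log x ^ U := by
  classical
  have hd : (X : ℤ[X]).natDegree = 1 := natDegree_X
  obtain ⟨B0, h0⟩ := l1_one (X : ℤ[X]) (by rw [hd]) (by rw [leadingCoeff_X]; norm_num) 1 le_rfl (2 * U)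
  refine ⟨B0, fun E => ?_⟩
  obtain ⟨x0, h1⟩ := h0 E
  obtain ⟨n1, hn1⟩ := ev_L' 1
  refine ⟨x0 + n1 + 2, fun x hx z hz1 hz2 w hw => ?_⟩
  have h2 := h1 x (by omega) x (by rw [hd, pow_one, one_mul]) (by rw [hd, pow_one, one_mul]) z hz1 hz2 w hw
  have hL := hn1 x (by omega)
  have hx0 : (0 : ℝ) < x := by exact_mod_cast (by omega : 0 < x)
  have hL0 : 0 < Real.log x := by linarith
  have hT : 0 < (x : ℝ) / Real.log x ^ U := by positivity
  have h3 : ((EX w z x U).card : ℝ) * ((x : ℝ) / Real.log x ^ U) ≤ x * x / Real.log x ^ (2 * U) := by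
    refine le_trans ?_ h2
    calc ((EX w z x U).card : ℝ) * ((x : ℝ) / Real.log x ^ U) = ∑ _N ∈ EX w z x U, (x : ℝ) / Real.log x ^ U := by
          rw [sum_const, nsmul_eq_mul]
      _ ≤ ∑ N ∈ EX w z x U, |∑ t ∈ Icc 1 x, w t * (lamP ((N : ℤ) - t) - lamzI z ((N : ℤ) - t))| := by
          apply sum_le_sum
          intro N hN
          unfold EX at hN
          rw [mem_filter] at hN
          exact hN.2.le
      _ ≤ ∑ N ∈ Icc 1 x, |∑ t ∈ Icc 1 x, w t * (lamP ((N : ℤ) - t) - lamzI z ((N : ℤ) - t))| := by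
          apply sum_le_sum_of_subset_of_nonneg
          · unfold EX
            exact filter_subset _ _
          · intro _ _ _
            exact abs_nonneg _
      _ = _ := by
          apply sum_congr rfl
          intro N _
          congr 1
          apply sum_congr rfl
          intro t _
          rw [eval_X]
  have h4 : (x : ℝ) * x / Real.log x ^ (2 * U) = (x / Real.log x ^ U) * (x / Real.log x ^ U) := by
    rw [two_mul, pow_add]
    field_simp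
  rw [h4] at h3
  exact le_of_mul_le_mul_right h3 hT

/-- a number which is not exceptional and has a large model is represented -/
theorem pos_ex (w : ℕ → ℝ) (z x U N : ℕ) (hw : ∀ t, 0 ≤ w t) (hN : N ∈ Icc 1 x) (hE : N ∉ EX w z x U)
    (hT : (x : ℝ) / Real.log x ^ U < ∑ t ∈ Icc 1 x, w t * lamzI z ((N : ℤ) - t)) :
    ∃ t ∈ Icc 1 x, 0 < w t ∧ ((N : ℤ) - t).toNat.Prime := by
  classical
  unfold EX at hE
  rw [mem_filter, not_and, not_lt] at hE
  have h1 := hE hN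
  have h2 : ∑ t ∈ Icc 1 x, w t * (lamP ((N : ℤ) - t) - lamzI z ((N : ℤ) - t)) =
      ∑ t ∈ Icc 1 x, w t * lamP ((N : ℤ) - t) - ∑ t ∈ Icc 1 x, w t * lamzI z ((N : ℤ) - t) := by
    rw [← sum_sub_distrib]
    exact sum_congr rfl fun t _ => by ring
  rw [h2] at h1
  have h3 : 0 < ∑ t ∈ Icc 1 x, w t * lamP ((N : ℤ) - t) := by
    have := (abs_le.1 h1).1
    linarith
  obtain ⟨t, ht, h4⟩ := exists_lt_of_sum_lt (s := Icc 1 x) (f := fun _ => (0 : ℝ))
    (g := fun t => w t * lamP ((N : ℤ) - t)) (by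
    rw [sum_const_zero]
    exact h3)
  refine ⟨t, ht, ?_, ?_⟩
  · by_contra h5
    have h6 : w t = 0 := le_antisymm (not_lt.1 h5) (hw t)
    rw [h6, zero_mul] at h4
    exact lt_irrefl _ h4
  · by_contra h5
    unfold lamP at h4
    rw [if_neg h5, mul_zero] at h4
    exact lt_irrefl _ h4

open Classical in
/-- the model at one point -/
theorem lamzI_eq (z : ℕ) (k : ℤ) (hk : 1 ≤ k) :
    lamzI z k = if ∀ p ∈ pz z, ¬ (p : ℤ) ∣ k then (Vz z)⁻¹ else 0 := by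
  unfold lamzI lamz
  rw [if_pos hk]
  have h1 : ((k.toNat : ℕ) : ℤ) = k := Int.toNat_of_nonneg (by omega)
  have h2 : (∀ p ∈ pz z, ¬ p ∣ k.toNat) ↔ (∀ p ∈ pz z, ¬ (p : ℤ) ∣ k) := by
    constructor
    · intro h p hp hd
      apply h p hp
      rw [← h1] at hd
      exact_mod_cast hd
    · intro h p hp hd
      apply h p hp
      rw [← h1]
      exact_mod_cast hd
  by_cases h3 : ∀ p ∈ pz z, ¬ (p : ℤ) ∣ k
  · rw [if_pos h3, if_pos (h2.2 h3)]
  · rw [if_neg h3, if_neg (fun h => h3 (h2.1 h))]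

open Classical in
/-- the model on short intervals -/
theorem short : ∃ K x0 : ℕ, ∀ z : ℕ, x0 ≤ z → ∀ m : ℕ, z ^ K ≤ m → ∀ M : ℕ, m ≤ M →
    (m : ℝ) / 4 ≤ ∑ j ∈ range m, lamzI z ((M : ℤ) - j) := by
  obtain ⟨K, x0, hK, H⟩ := sys_fund 1 le_rfl (1 / 4) (by norm_num)
  refine ⟨K + 4, x0 + 4, fun z hz m hm M hM => ?_⟩
  have hz4 : 4 ≤ z := by omega
  have hzK : z ^ K ≤ m := (Nat.pow_le_pow_right (by omega) (by omega)).trans hm
  have hz44 : z ^ 4 ≤ m := (Nat.pow_le_pow_right (by omega) (by omega)).trans hm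
  obtain ⟨Q, hQ⟩ : ∃ Q : ℕ → ℕ → Prop, ∀ p n : ℕ, Q p n ↔ (p : ℤ) ∣ (M : ℤ) + 1 - n := ⟨_, fun _ _ => Iff.rfl⟩
  have hper : ∀ p n, Q p n ↔ Q p (n % p) := by
    intro p n
    rw [hQ, hQ]
    have h2 : (p : ℤ) ∣ (n : ℤ) - ((n % p : ℕ) : ℤ) := by
      push_cast
      exact Int.dvd_self_sub_emod
    have h1 : (p : ℤ) ∣ ((M : ℤ) + 1 - n) - ((M : ℤ) + 1 - ((n % p : ℕ) : ℤ)) := by
      have e : ((M : ℤ) + 1 - n) - ((M : ℤ) + 1 - ((n % p : ℕ) : ℤ)) = -((n : ℤ) - ((n % p : ℕ) : ℤ)) := by ring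
      rw [e, dvd_neg]
      exact h2
    exact dvd_iff_dvd_of_dvd_sub h1
  have hnu : ∀ p, p.Prime → nuB Q p = 1 := by
    intro p hp
    unfold nuB
    rw [card_eq_one]
    have hp0 : (0 : ℤ) < p := by exact_mod_cast hp.pos
    refine ⟨(((M : ℤ) + 1) % p).toNat, ?_⟩
    have hr1 : ((((M : ℤ) + 1) % p).toNat : ℤ) = ((M : ℤ) + 1) % p := Int.toNat_of_nonneg (Int.emod_nonneg _ hp0.ne')
    have hr2 : ((M : ℤ) + 1) % p < p := Int.emod_lt_of_pos _ hp0
    have hr0 : 0 ≤ ((M : ℤ) + 1) % p := Int.emod_nonneg _ hp0.ne'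
    ext r
    rw [mem_filter, mem_range, mem_singleton, hQ]
    constructor
    · rintro ⟨h1, h2⟩
      have h6 : (p : ℤ) ∣ ((M : ℤ) + 1) % p - r := by
        have h7 : (p : ℤ) ∣ ((M : ℤ) + 1) - ((M : ℤ) + 1) % p := Int.dvd_self_sub_emod
        have h8 := dvd_sub h2 h7
        have e : (M : ℤ) + 1 - r - ((M : ℤ) + 1 - ((M : ℤ) + 1) % p) = ((M : ℤ) + 1) % p - r := by ring
        rwa [e] at h8
      obtain ⟨k, hk⟩ := h6
      have ha2 : (r : ℤ) < p := by exact_mod_cast h1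
      have hr00 : (0 : ℤ) ≤ r := by positivity
      have h3 : k < 1 := by
        by_contra h4
        have : (p : ℤ) * 1 ≤ p * k := mul_le_mul_of_nonneg_left (by omega) hp0.le
        omega
      have h4 : -1 < k := by
        by_contra h4
        have : (p : ℤ) * k ≤ p * (-1) := mul_le_mul_of_nonneg_left (by omega) hp0.le
        omega
      have h5 : k = 0 := by omega
      rw [h5, mul_zero] at hk
      have h9 : (r : ℤ) = ((((M : ℤ) + 1) % p).toNat : ℤ) := by rw [hr1]; omega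
      exact_mod_cast h9
    · rintro rfl
      refine ⟨by omega, ?_⟩
      rw [hr1]
      exact Int.dvd_self_sub_emod
  have h1 := H m z (by omega) hzK Q ⟨hper, fun p hp => (hnu p hp).le⟩ m
  have h2 : ∏ p ∈ pz z, (1 - (nuB Q p : ℝ) / p) = Vz z := by
    unfold Vz
    apply prod_congr rfl
    intro p hp
    rw [hnu p (mem_pz.1 hp).2]
    norm_num
  rw [h2] at h1
  have h3 : ∑ j ∈ range m, lamzI z ((M : ℤ) - j) =
      (Vz z)⁻¹ * (((Icc 1 m).filter (fun n : ℕ => ∀ p ∈ pz z, ¬ Q p n)).card : ℝ) := by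
    rw [card_filter]
    push_cast
    rw [mul_sum]
    refine sum_nbij' (fun j => j + 1) (fun n => n - 1) ?_ ?_ ?_ ?_ ?_
    · intro j hj
      rw [mem_range] at hj
      exact mem_Icc.2 ⟨by omega, by omega⟩
    · intro n hn
      rw [mem_Icc] at hn
      exact mem_range.2 (by omega)
    · intro j _
      rfl
    · intro n hn
      rw [mem_Icc] at hn
      show n - 1 + 1 = n
      omega
    · intro j hj
      rw [mem_range] at hj
      rw [lamzI_eq z _ (by omega)]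
      have e : ∀ p ∈ pz z, ((p : ℤ) ∣ (M : ℤ) - j ↔ Q p (j + 1)) := by
        intro p _
        rw [hQ]
        have e2 : (M : ℤ) + 1 - ((j + 1 : ℕ) : ℤ) = M - j := by push_cast; ring
        rw [e2]
      by_cases h4 : ∀ p ∈ pz z, ¬ (p : ℤ) ∣ (M : ℤ) - j
      · rw [if_pos h4, if_pos (fun p hp h => h4 p hp ((e p hp).2 h)), mul_one]
      · rw [if_neg h4, if_neg (fun h => h4 (fun p hp h5 => h p hp ((e p hp).1 h5))), mul_zero]
  rw [h3]
  have hV := Vz_pos z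
  have hVi := Vz_inv_le z (by omega)
  have hVi0 : 0 < (Vz z)⁻¹ := inv_pos.2 hV
  have h4 := (abs_le.1 h1).1
  have h5 : (3 / 4 : ℝ) * (m * Vz z) - √(m : ℝ) ≤ (((Icc 1 m).filter (fun n : ℕ => ∀ p ∈ pz z, ¬ Q p n)).card : ℝ) := by
    linarith
  have hz0 : (4 : ℝ) ≤ z := by exact_mod_cast hz4
  have hmr : (z : ℝ) ^ 4 ≤ m := by exact_mod_cast hz44
  have hm0 : (0 : ℝ) ≤ m := Nat.cast_nonneg _
  have h6 : (z : ℝ) ^ 2 ≤ √(m : ℝ) := by
    apply Real.le_sqrt_of_sq_le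
    have h10 : ((z : ℝ) ^ 2) ^ 2 = (z : ℝ) ^ 4 := by ring
    rw [h10]
    exact hmr
  have h7 : (z : ℝ) * √(m : ℝ) ≤ m / 2 := by
    have h8 : √(m : ℝ) * √(m : ℝ) = m := Real.mul_self_sqrt hm0
    have h9 : 2 * (z : ℝ) ≤ √(m : ℝ) := by nlinarith
    have h10 : 0 ≤ √(m : ℝ) := Real.sqrt_nonneg _
    nlinarith
  calc (m : ℝ) / 4 = 3 / 4 * m - m / 2 := by ring
    _ ≤ 3 / 4 * m - z * √(m : ℝ) := by linarith
    _ ≤ 3 / 4 * m - (Vz z)⁻¹ * √(m : ℝ) := by
        have := mul_le_mul_of_nonneg_right hVi (Real.sqrt_nonneg (m : ℝ))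
        linarith
    _ = (Vz z)⁻¹ * ((3 / 4 : ℝ) * (m * Vz z) - √(m : ℝ)) := by
        field_simp
    _ ≤ _ := mul_le_mul_of_nonneg_left h5 hVi0.le

end Pool.Agent.J4H70.PA
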