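import Pool.Agent.J4H70.PA.Err
import Pool.Agent.Y882.SI.Quad
import Pool.Agent.Y882.KW.Alm
import Pool.Agent.Y882.KW.Num

/-! The weighted sieve for `n ^ 2 - 2` at primes `n` satisfying additional local conditions: the lower bound. -/

set_option autoImplicit false

namespace Pool.Agent.J4H70.PA

open Finset Filter
open Pool.Agent.H373R2.T7
open Pool.Agent.W23.DC
open Pool.Agent.Y882
open Pool.Agent.Y882.KW
open Pool.Agent.Y882.SI (QF QF_eval ro_quad_le mer_quad)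
open Pool.Agent.Y882.PX (ro ro_eq pr_mem V_low)

open Classical in
/-- the product of the primes `p ∈ PZ Y υ` whose condition holds -/
noncomputable def NN (Y : ℕ) (υ : ℝ) (Q : ℕ → ℕ → Prop) (n : ℕ) : ℕ :=
  ∏ p ∈ (PZ Y υ).filter (fun p => ¬ p ∣ n ∧ Q p n), p

theorem PZ_prime {Y p : ℕ} {υ : ℝ} (h : p ∈ PZ Y υ) : p.Prime := by
  unfold PZ at h
  rw [mem_filter] at h
  exact h.2.1

theorem dvd_NN {Y p : ℕ} {υ : ℝ} (Q : ℕ → ℕ → Prop) (n : ℕ) (h : p ∈ PZ Y υ) :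
    p ∣ NN Y υ Q n ↔ (¬ p ∣ n ∧ Q p n) := by
  classical
  unfold NN
  constructor
  · intro h1
    obtain ⟨q, hq, hpq⟩ := (Prime.dvd_finsetProd_iff (PZ_prime h).prime _).1 h1
    rw [mem_filter] at hq
    have : p = q := (Nat.prime_dvd_prime_iff_eq (PZ_prime h) (PZ_prime hq.1)).1 hpq
    rw [this]
    exact hq.2
  · intro h1
    exact dvd_prod_of_mem _ (mem_filter.2 ⟨h, h1⟩)

open Classical in
/-- the sum of the weights over the primes -/
theorem vv_sum (Y : ℕ) (υ : ℝ) (c : Finset ℕ → ℝ) (Q : ℕ → ℕ → Prop) (X : ℕ) :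
    ∑ n ∈ Icc 1 X, ArithmeticFunction.vonMangoldt n *
      VV (PZ Y υ) c (fun p => if p ∣ NN Y υ Q n then 1 else 0) =
    ∑ T ∈ (PZ Y υ).powerset, c T * ∑ n ∈ (Icc 1 X).filter (fun n : ℕ => ∀ p ∈ T, ¬ p ∣ n ∧ Q p n),
      ArithmeticFunction.vonMangoldt n := by
  have h1 : ∀ n ∈ Icc 1 X, ArithmeticFunction.vonMangoldt n *
      VV (PZ Y υ) c (fun p => if p ∣ NN Y υ Q n then 1 else 0) =
      ∑ T ∈ (PZ Y υ).powerset, c T * (if ∀ p ∈ T, ¬ p ∣ n ∧ Q p n then ArithmeticFunction.vonMangoldt n else 0) := by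
    intro n _
    unfold VV
    rw [mul_sum]
    apply sum_congr rfl
    intro T hT
    rw [mem_powerset] at hT
    have h2 : ∏ p ∈ T, (if p ∣ NN Y υ Q n then (1 : ℝ) else 0) = if ∀ p ∈ T, ¬ p ∣ n ∧ Q p n then 1 else 0 := by
      have h3 : ∀ p ∈ T, (if p ∣ NN Y υ Q n then (1 : ℝ) else 0) = if (¬ p ∣ n ∧ Q p n) then 1 else 0 := by
        intro p hp
        by_cases h4 : ¬ p ∣ n ∧ Q p n
        · rw [if_pos ((dvd_NN Q n (hT hp)).2 h4), if_pos h4]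
        · rw [if_neg (fun h => h4 ((dvd_NN Q n (hT hp)).1 h)), if_neg h4]
      rw [prod_congr rfl h3, prod_ite_zero]
      simp
    rw [h2]
    split_ifs <;> ring
  rw [sum_congr rfl h1, sum_comm]
  apply sum_congr rfl
  intro T _
  rw [← mul_sum, sum_filter]

/-- the sum of the weights and its main term -/
theorem vv_main (Y : ℕ) (υ : ℝ) (c : Finset ℕ → ℝ) (Q : ℕ → ℕ → Prop) (X D : ℕ) (M : ℝ)
    (hc : ∀ T, |c T| ≤ M) (hD : ∀ T ⊆ PZ Y υ, c T ≠ 0 → ∏ p ∈ T, p ≤ D) :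
    lam1 X * VV (PZ Y υ) c (fun p => (rhoA Q p : ℝ) / (p - 1 : ℝ)) -
      M * ∑ T ∈ (PZ Y υ).powerset.filter (fun T : Finset ℕ => ∏ p ∈ T, p ≤ D), er Q X T ≤
    ∑ n ∈ Icc 1 X, ArithmeticFunction.vonMangoldt n *
      VV (PZ Y υ) c (fun p => if p ∣ NN Y υ Q n then 1 else 0) := by
  classical
  have h0 := vv_sum Y υ c Q X
  have e0 : ∑ n ∈ Icc 1 X, ArithmeticFunction.vonMangoldt n *
      VV (PZ Y υ) c (fun p => if p ∣ NN Y υ Q n then 1 else 0) =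
      ∑ T ∈ (PZ Y υ).powerset, c T * ∑ n ∈ (Icc 1 X).filter (fun n : ℕ => ∀ p ∈ T, ¬ p ∣ n ∧ Q p n),
      ArithmeticFunction.vonMangoldt n := by convert h0
  rw [e0]
  have h1 : lam1 X * VV (PZ Y υ) c (fun p => (rhoA Q p : ℝ) / (p - 1 : ℝ)) -
      ∑ T ∈ (PZ Y υ).powerset, c T * ∑ n ∈ (Icc 1 X).filter (fun n : ℕ => ∀ p ∈ T, ¬ p ∣ n ∧ Q p n),
      ArithmeticFunction.vonMangoldt n =
      ∑ T ∈ (PZ Y υ).powerset, c T * (lam1 X * ∏ p ∈ T, ((rhoA Q p : ℝ) / (p - 1 : ℝ)) -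
        ∑ n ∈ (Icc 1 X).filter (fun n : ℕ => ∀ p ∈ T, ¬ p ∣ n ∧ Q p n), ArithmeticFunction.vonMangoldt n) := by
    unfold VV
    rw [mul_sum, ← sum_sub_distrib]
    apply sum_congr rfl
    intro T _
    ring
  have h2 : ∑ T ∈ (PZ Y υ).powerset, c T * (lam1 X * ∏ p ∈ T, ((rhoA Q p : ℝ) / (p - 1 : ℝ)) -
        ∑ n ∈ (Icc 1 X).filter (fun n : ℕ => ∀ p ∈ T, ¬ p ∣ n ∧ Q p n), ArithmeticFunction.vonMangoldt n) ≤
      M * ∑ T ∈ (PZ Y υ).powerset.filter (fun T : Finset ℕ => ∏ p ∈ T, p ≤ D), er Q X T := by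
    rw [mul_sum, sum_filter]
    apply sum_le_sum
    intro T hT
    rw [mem_powerset] at hT
    have h3 : c T * (lam1 X * ∏ p ∈ T, ((rhoA Q p : ℝ) / (p - 1 : ℝ)) -
        ∑ n ∈ (Icc 1 X).filter (fun n : ℕ => ∀ p ∈ T, ¬ p ∣ n ∧ Q p n), ArithmeticFunction.vonMangoldt n) ≤
        |c T| * er Q X T := by
      unfold er
      rw [abs_sub_comm, ← abs_mul]
      convert le_abs_self _
    split_ifs with h4
    · refine h3.trans (mul_le_mul_of_nonneg_right (hc T) ?_)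
      unfold er
      exact abs_nonneg _
    · have h5 : c T = 0 := by
        by_contra h6
        exact h4 (hD T hT h6)
      rw [h5, zero_mul]
  linarith

/-- the numerical condition of the sieve: `11 ^ 5 < 3 ^ 11` -/
theorem cond_num : ∫ x in (3 / 50 : ℝ)..(11 / 50), ((11 / 16 : ℝ) - 11 / 16 / (11 / 50) * x) / (6 / 25 - x) / x <
    Real.log (6 / 25 / (3 / 50) - 1) / (6 / 25) := by
  apply cond_log (11 / 16) (6 / 25) (3 / 50) (11 / 50) (by norm_num) (by norm_num) (by norm_num) (by norm_num)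
  have e1 : (11 / 50 : ℝ) / (3 / 50) = 11 / 3 := by norm_num
  have e2 : (6 / 25 : ℝ) / (11 / 50) - 1 = 1 / 11 := by norm_num
  have e3 : ((6 / 25 : ℝ) - 3 / 50) / (6 / 25 - 11 / 50) = 9 := by norm_num
  have e4 : (6 / 25 : ℝ) / (3 / 50) - 1 = 3 := by norm_num
  rw [e1, e2, e3, e4]
  have f1 : Real.log (11 / 3) = Real.log 11 - Real.log 3 := Real.log_div (by norm_num) (by norm_num)
  have f2 : Real.log (9 : ℝ) = 2 * Real.log 3 := by
    rw [show (9 : ℝ) = 3 ^ 2 by norm_num, Real.log_pow]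
    norm_num
  have f3 : 5 * Real.log 11 ≤ 11 * Real.log 3 := by
    have h1 : Real.log ((11 : ℝ) ^ 5) ≤ Real.log ((3 : ℝ) ^ 11) := Real.log_le_log (by norm_num) (by norm_num)
    rw [Real.log_pow, Real.log_pow] at h1
    push_cast at h1
    exact h1
  have f4 : 0 < Real.log 3 := Real.log_pos (by norm_num)
  rw [f1, f2]
  linarith

/-- the densities of the roots of `n ^ 2 - 2`, divided by `p - 1` -/
theorem mer_two (ε₁ η : ℝ) (hε : 0 < ε₁) (hη : 0 < η) : ∃ Y0 : ℕ, ∀ Y : ℕ, Y0 ≤ Y → ∀ h : ℕ → ℝ,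
    (∀ p ∈ pr Y ε₁ (11 / 50), h p = (ro (QF (-2)) 0 p : ℝ) / ((p : ℝ) - 1)) →
      Mer (pr Y ε₁ (11 / 50)) (tt Y) h ε₁ (11 / 50) η := by
  classical
  have hsq : ¬ IsSquare (-(-2 : ℤ)) := by
    rintro ⟨r, hr⟩
    have h1 : r * r = 2 := by linarith
    have h2 : r ≤ 1 := by nlinarith
    have h3 : -1 ≤ r := by nlinarith
    have : r = -1 ∨ r = 0 ∨ r = 1 := by omega
    rcases this with rfl | rfl | rfl <;> norm_num at h1
  obtain ⟨Y1, hY1⟩ := mer_quad (-2) hsq ε₁ (11 / 50) (η / 2) hε (by norm_num) (by linarith)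
  have ev1 : ∀ᶠ Y : ℕ in atTop, (8 / η + 2 : ℝ) ≤ (Y : ℝ) ^ ε₁ :=
    ((tendsto_rpow_atTop hε).comp tendsto_natCast_atTop_atTop).eventually_ge_atTop _
  obtain ⟨Y2, hY2⟩ := eventually_atTop.1 (ev1.and (eventually_ge_atTop 2))
  refine ⟨max Y1 Y2, fun Y hY h hh a b ha hab hb => ?_⟩
  have h1 := hY1 Y ((le_max_left _ _).trans hY) a b ha hab hb
  obtain ⟨e1, e2⟩ := hY2 Y ((le_max_right _ _).trans hY)
  have hdiff : |∑ p ∈ (pr Y ε₁ (11 / 50)).filter (fun p => a ≤ tt Y p ∧ tt Y p < b), h p -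
      ∑ p ∈ (pr Y ε₁ (11 / 50)).filter (fun p => a ≤ tt Y p ∧ tt Y p < b), (ro (QF (-2)) 0 p : ℝ) / p| ≤ η / 2 := by
    rw [← sum_sub_distrib]
    refine (abs_sum_le_sum_abs _ _).trans ?_
    have h2 : ∀ p ∈ (pr Y ε₁ (11 / 50)).filter (fun p => a ≤ tt Y p ∧ tt Y p < b),
        |h p - (ro (QF (-2)) 0 p : ℝ) / p| ≤ 2 * (1 / ((p : ℝ) - 1) - 1 / p) := by
      intro p hp
      have hp1 := (mem_filter.1 hp).1
      obtain ⟨g1, g2, g3⟩ := pr_mem Y p _ _ e2 hp1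
      have hp2 : (2 : ℝ) ≤ p := by exact_mod_cast g1.two_le
      have hro : (ro (QF (-2)) 0 p : ℝ) ≤ 2 := by exact_mod_cast ro_quad_le (-2) p g1
      have h3 : 0 ≤ 1 / ((p : ℝ) - 1) - 1 / p := by
        rw [sub_nonneg]
        exact one_div_le_one_div_of_le (by linarith) (by linarith)
      rw [hh p hp1]
      have h4 : (ro (QF (-2)) 0 p : ℝ) / ((p : ℝ) - 1) - (ro (QF (-2)) 0 p : ℝ) / p =
          (ro (QF (-2)) 0 p : ℝ) * (1 / ((p : ℝ) - 1) - 1 / p) := by ring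
      rw [h4, abs_of_nonneg (by positivity)]
      exact mul_le_mul_of_nonneg_right hro h3
    refine (sum_le_sum h2).trans ?_
    rw [← mul_sum]
    -- telescoping over all integers
    have h5 : ∑ p ∈ (pr Y ε₁ (11 / 50)).filter (fun p => a ≤ tt Y p ∧ tt Y p < b), (1 / ((p : ℝ) - 1) - 1 / p) ≤
        ∑ n ∈ Ico ⌈(Y : ℝ) ^ ε₁⌉₊ (Y + 1), (1 / ((n : ℝ) - 1) - 1 / n) := by
      have hge : 2 ≤ ⌈(Y : ℝ) ^ ε₁⌉₊ := by
        have : 0 < 8 / η := by positivity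
        have h6 : (2 : ℝ) ≤ ⌈(Y : ℝ) ^ ε₁⌉₊ := le_trans (by linarith) (Nat.le_ceil _)
        exact_mod_cast h6
      apply sum_le_sum_of_subset_of_nonneg
      · intro p hp
        have hp1 := (mem_filter.1 hp).1
        obtain ⟨g1, g2, g3⟩ := pr_mem Y p _ _ e2 hp1
        rw [mem_Ico]
        refine ⟨Nat.ceil_le.2 g2, ?_⟩
        unfold pr at hp1
        rw [mem_filter, mem_Icc] at hp1
        omega
      · intro n hn _
        rw [mem_Ico] at hn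
        have hn2 : (2 : ℝ) ≤ n := by exact_mod_cast hge.trans hn.1
        rw [sub_nonneg]
        exact one_div_le_one_div_of_le (by linarith) (by linarith)
    have h6 : ∀ A B : ℕ, 2 ≤ A → A ≤ B → ∑ n ∈ Ico A B, (1 / ((n : ℝ) - 1) - 1 / n) ≤ 1 / ((A : ℝ) - 1) := by
      intro A B hA hAB
      have h7 : ∑ n ∈ Ico A B, (1 / ((n : ℝ) - 1) - 1 / n) = 1 / ((A : ℝ) - 1) - 1 / ((B : ℝ) - 1) := by
        induction B, hAB using Nat.le_induction with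
        | base => simp
        | succ B hAB ih =>
          rw [sum_Ico_succ_top hAB, ih]
          push_cast
          ring
      rw [h7]
      have hB : (2 : ℝ) ≤ B := by exact_mod_cast hA.trans hAB
      have : 0 ≤ 1 / ((B : ℝ) - 1) := by
        apply one_div_nonneg.2
        linarith
      linarith
    have h8 : (8 / η + 2 : ℝ) ≤ ⌈(Y : ℝ) ^ ε₁⌉₊ := e1.trans (Nat.le_ceil _)
    have h8' : 0 < 8 / η := by positivity
    have hge : 2 ≤ ⌈(Y : ℝ) ^ ε₁⌉₊ := by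
      have h6 : (2 : ℝ) ≤ ⌈(Y : ℝ) ^ ε₁⌉₊ := by linarith
      exact_mod_cast h6
    rcases le_or_gt ⌈(Y : ℝ) ^ ε₁⌉₊ (Y + 1) with h9 | h9
    · have h10 := h6 _ _ hge h9
      have h11 : 1 / ((⌈(Y : ℝ) ^ ε₁⌉₊ : ℝ) - 1) ≤ 1 / (8 / η) :=
        one_div_le_one_div_of_le h8' (by linarith)
      have h12 : 1 / (8 / η) = η / 8 := by field_simp
      linarith
    · rw [Ico_eq_empty (by omega), sum_empty] at h5
      linarith
  calc |∑ p ∈ (pr Y ε₁ (11 / 50)).filter (fun p => a ≤ tt Y p ∧ tt Y p < b), h p - Real.log (b / a)| ≤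
      |∑ p ∈ (pr Y ε₁ (11 / 50)).filter (fun p => a ≤ tt Y p ∧ tt Y p < b), h p -
      ∑ p ∈ (pr Y ε₁ (11 / 50)).filter (fun p => a ≤ tt Y p ∧ tt Y p < b), (ro (QF (-2)) 0 p : ℝ) / p| +
      |∑ p ∈ (pr Y ε₁ (11 / 50)).filter (fun p => a ≤ tt Y p ∧ tt Y p < b), (ro (QF (-2)) 0 p : ℝ) / p -
        Real.log (b / a)| := abs_sub_le _ _ _
    _ ≤ η / 2 + η / 2 := by
        apply add_le_add hdiff
        convert h1
    _ = η := by ring

end Pool.Agent.J4H70.PA
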