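import Pool.Agent.J4H70.PA.Low

/-! The weighted sieve for `n ^ 2 - 2` at primes `n` satisfying additional local conditions: the lower bound. -/

set_option autoImplicit false

namespace Pool.Agent.J4H70.PA

open Finset Filter
open Pool.Agent.H373R2.T7
open Pool.Agent.W23.DC
open Pool.Agent.Y882
open Pool.Agent.Y882.KW
open Pool.Agent.Y882.SI (QF QF_eval ro_quad_le mer_quad)
open Pool.Agent.Y882.PX (ro ro_eq pr_mem V_low)

/-- the weight of the number `N` on the scale `Y` -/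
noncomputable def W5 (Y N : ℕ) : ℝ := WW Y (3 / 50) (11 / 50) (11 / 16) (11 / 16 / (11 / 50)) N

/-- the number of nonzero classes is the number of roots -/
theorem rho_ro (R : ℕ → ℕ → Prop) (p : ℕ) (h3 : 3 ≤ p)
    (hR : ∀ n : ℕ, R p n ↔ (p : ℤ) ∣ (n : ℤ) ^ 2 - 2) : rhoA R p = ro (QF (-2)) 0 p := by
  classical
  rw [ro_eq]
  unfold rhoA
  congr 1
  apply filter_congr
  intro r _
  rw [QF_eval, add_zero, hR r]
  have e : (r : ℤ) ^ 2 + -2 = (r : ℤ) ^ 2 - 2 := by ring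
  rw [e]
  constructor
  · exact fun h => h.2
  · intro h
    refine ⟨fun h1 => ?_, h⟩
    have h2 : (p : ℤ) ∣ (r : ℤ) := by exact_mod_cast h1
    have h4 : (p : ℤ) ∣ 2 := by
      have h5 : (p : ℤ) ∣ (r : ℤ) ^ 2 := dvd_pow h2 (by norm_num)
      have := dvd_sub h5 h
      have e2 : (r : ℤ) ^ 2 - ((r : ℤ) ^ 2 - 2) = 2 := by ring
      rwa [e2] at this
    have h6 : p ∣ 2 := by exact_mod_cast h4
    have := Nat.le_of_dvd (by norm_num) h6
    omega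

open Classical in
/-- **the lower bound** -/
theorem low : ∃ ε₁ c0 : ℝ, 0 < ε₁ ∧ ε₁ ≤ 3 / 50 ∧ 0 < c0 ∧ ∃ Q0 : ℕ, ∀ Q : ℕ, Q0 ≤ Q → ∀ R : ℕ → ℕ → Prop, PerA R 3 →
    (∀ p : ℕ, p.Prime → rhoA R p + 2 ≤ p) →
    (∀ p : ℕ, p.Prime → ((Q ^ 2 : ℕ) : ℝ) ^ ε₁ ≤ p → ∀ n : ℕ, R p n ↔ (p : ℤ) ∣ (n : ℤ) ^ 2 - 2) →
    c0 * (Q / Real.log Q ^ 8) ≤ ∑ n ∈ Icc 1 Q, ArithmeticFunction.vonMangoldt n *
      W5 (Q ^ 2) (NN (Q ^ 2) (11 / 50) R n) := by
  obtain ⟨ε₁, η, f, hε₁, hε₁ζ, -, hη, hf, Y0, H⟩ := core3 3 (6 / 25) (3 / 50) (11 / 50) (11 / 16)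
    (11 / 16 / (11 / 50)) (49 / 200) 1 (by norm_num) (by norm_num) (by norm_num) (by norm_num) (by norm_num)
    (by norm_num) (by norm_num) (by norm_num) (by norm_num) cond_num (by norm_num) (by norm_num)
  obtain ⟨Y1, hM⟩ := mer_two ε₁ η hε₁ hη
  obtain ⟨X0, B, hE⟩ := er_sum 3 (by norm_num) 10
  obtain ⟨c, hc, hV⟩ := V_low 4
  obtain ⟨Y2, hJ⟩ := exJ 1 (by norm_num)
  obtain ⟨C, N1, hC, hpnt⟩ := pnt_lam 1
  have ev1 : ∀ᶠ Q : ℕ in atTop, (3 : ℝ) ≤ (((Q : ℝ)) ^ 2) ^ ε₁ := by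
    have h1 : Tendsto (fun Q : ℕ => ((Q : ℝ)) ^ 2) atTop atTop :=
      (tendsto_pow_atTop (by norm_num)).comp tendsto_natCast_atTop_atTop
    exact ((tendsto_rpow_atTop hε₁).comp h1).eventually_ge_atTop _
  have ev2 : ∀ᶠ Q : ℕ in atTop, Real.log Q ^ B ≤ (Q : ℝ) ^ (1 / 50 : ℝ) := by
    have h1 := (isLittleO_log_rpow_rpow_atTop (B : ℝ) (show (0 : ℝ) < 1 / 50 by norm_num)).bound
      (show (0 : ℝ) < 1 by norm_num)
    filter_upwards [tendsto_natCast_atTop_atTop.eventually h1, eventually_ge_atTop 1] with Q hQ hQ1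
    have hQr : (1 : ℝ) ≤ Q := by exact_mod_cast hQ1
    rw [Real.norm_of_nonneg (by have := Real.log_nonneg hQr; positivity), Real.norm_of_nonneg (by positivity),
      Real.rpow_natCast, one_mul] at hQ
    exact hQ
  have ev3 : ∀ᶠ Q : ℕ in atTop, max (8 * C + 8) (10 * (4 * 6 ^ 8) / (f * c) + 4) ≤ Real.log Q :=
    (Real.tendsto_log_atTop.comp tendsto_natCast_atTop_atTop).eventually_ge_atTop _
  obtain ⟨Q1, hQ1⟩ := eventually_atTop.1 (ev1.and (ev2.and ev3))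
  refine ⟨ε₁, f * c / (4 * 6 ^ 8), hε₁, hε₁ζ, by positivity, Q1 + Y0 + Y1 + Y2 + X0 + N1 + 4, fun Q hQ R hR hR2 hR3 => ?_⟩
  obtain ⟨e1, e2, e3⟩ := hQ1 Q (by omega)
  have e4 : 8 * C + 8 ≤ Real.log Q := (le_max_left _ _).trans e3
  have e5 : 10 * (4 * 6 ^ 8) / (f * c) + 4 ≤ Real.log Q := (le_max_right _ _).trans e3
  have hQ4 : 4 ≤ Q := by omega
  have hQQ : Q ≤ Q ^ 2 := Nat.le_self_pow (by norm_num) Q
  have hY2 : 2 ≤ Q ^ 2 := by omega
  have hQr : (4 : ℝ) ≤ Q := by exact_mod_cast hQ4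
  have hQ0 : (0 : ℝ) < Q := by linarith
  have hL1 : 8 ≤ Real.log Q := by linarith
  have hL0 : 0 < Real.log Q := by linarith
  have hYr : (((Q ^ 2 : ℕ) : ℝ)) = (Q : ℝ) ^ 2 := by push_cast; rfl
  have hY1r : (1 : ℝ) ≤ (((Q ^ 2 : ℕ) : ℝ)) := by rw [hYr]; nlinarith
  have hlogY : Real.log (((Q ^ 2 : ℕ) : ℝ)) = 2 * Real.log Q := by
    rw [hYr, Real.log_pow]
    norm_num
  obtain ⟨cc, g1, g2, g3, g4⟩ := H (Q ^ 2) (by omega)
  set Y : ℕ := Q ^ 2 with hYd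
  set h : ℕ → ℝ := fun p => (rhoA R p : ℝ) / (p - 1 : ℝ) with hh
  have hp2 : ∀ p : ℕ, p.Prime → (1 : ℝ) ≤ (p : ℝ) - 1 := by
    intro p hp
    have : (2 : ℝ) ≤ p := by exact_mod_cast hp.two_le
    linarith
  have hρ3 : ∀ p : ℕ, p.Prime → (rhoA R p : ℝ) ≤ 3 := fun p hp => by exact_mod_cast hR.few p hp
  have hρp : ∀ p : ℕ, p.Prime → (rhoA R p : ℝ) + 2 ≤ p := fun p hp => by exact_mod_cast hR2 p hp
  -- the main term
  have hlow := g4 h (fun p hp => div_nonneg (Nat.cast_nonneg _) (by linarith [hp2 p (PZ_prime hp)]))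
    (fun p hp => by
      have h1 := hp2 p (PZ_prime hp)
      have h2 := hρp p (PZ_prime hp)
      show (rhoA R p : ℝ) / (p - 1 : ℝ) ≤ 1
      rw [div_le_one (by linarith)]
      linarith)
    (fun p hp _ => by
      have h1 := hp2 p (PZ_prime hp)
      exact div_le_div_of_nonneg_right (by exact_mod_cast hρ3 p (PZ_prime hp)) (by linarith))
    (hM Y (by omega) h (fun p hp => by
      obtain ⟨k1, k2, k3⟩ := pr_mem Y p _ _ hY2 hp
      have k4 : 3 ≤ p := by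
        have : (3 : ℝ) ≤ p := by
          rw [hYr] at k2
          exact e1.trans k2
        exact_mod_cast this
      show (rhoA R p : ℝ) / (p - 1 : ℝ) = _
      rw [rho_ro R p k4 (hR3 p k1 k2)]))
  obtain ⟨J, hJ1, hJ2⟩ := hJ Y (by omega)
  rw [Real.rpow_one] at hJ1
  rw [mul_one] at hJ2
  have hJ3 : (2 : ℝ) ^ J ≤ 6 * Real.log Q := by
    have h1 := Real.log_le_log (by positivity) hJ2
    rw [Real.log_pow, Real.log_rpow (by linarith), hlogY] at h1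
    push_cast at h1
    have h2 := Real.log_two_gt_d9
    have h3 : (2 : ℝ) ^ J * 0.69 ≤ 2 ^ J * Real.log 2 := mul_le_mul_of_nonneg_left (by linarith) (by positivity)
    linarith
  have hprod : c * (1 / 2 ^ J) ^ (2 * 4) ≤ ∏ p ∈ PZ Y ε₁, (1 - h p) := by
    have h1 := hV J (PZ Y ε₁) (fun p => (rhoA R p : ℝ) + 1) (fun p hp => by
      refine ⟨PZ_prime hp, ?_⟩
      have h2 : (p : ℝ) < (Y : ℝ) ^ ε₁ := by
        unfold PZ at hp
        rw [mem_filter] at hp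
        exact (tt_lt Y p ε₁ hY2 hp.2.1.pos).1 hp.2.2
      have h3 : (Y : ℝ) ^ ε₁ ≤ (Y : ℝ) ^ (1 : ℝ) := Real.rpow_le_rpow_of_exponent_le hY1r (by linarith)
      rw [Real.rpow_one] at h3
      have h4 : (p : ℝ) < 2 ^ 2 ^ J := by linarith
      exact_mod_cast h4) (fun p hp => by
        have := hρ3 p (PZ_prime hp)
        push_cast
        linarith) (fun p hp => by
        have := hρp p (PZ_prime hp)
        linarith)
    refine h1.trans ?_
    apply Finset.prod_le_prod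
    · intro p hp
      have h2 := hρp p (PZ_prime hp)
      have h3 := hp2 p (PZ_prime hp)
      rw [sub_nonneg, div_le_one (by linarith)]
      linarith
    · intro p hp
      have h2 := hρp p (PZ_prime hp)
      have h3 := hp2 p (PZ_prime hp)
      show 1 - ((rhoA R p : ℝ) + 1) / p ≤ 1 - (rhoA R p : ℝ) / (p - 1 : ℝ)
      have h4 : (rhoA R p : ℝ) / (p - 1 : ℝ) ≤ ((rhoA R p : ℝ) + 1) / p := by
        rw [div_le_div_iff₀ (by linarith) (by linarith)]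
        nlinarith [(Nat.cast_nonneg (rhoA R p) : (0 : ℝ) ≤ rhoA R p)]
      linarith
  have hVlow : f * c / (6 ^ 8 * Real.log Q ^ 8) ≤ VV (PZ Y (11 / 50)) cc h := by
    refine le_trans ?_ hlow
    have h1 : 1 / (6 ^ 8 * Real.log Q ^ 8) ≤ (1 / 2 ^ J : ℝ) ^ (2 * 4) := by
      rw [one_div_pow, ← mul_pow]
      apply one_div_le_one_div_of_le (by positivity)
      exact pow_le_pow_left₀ (by positivity) hJ3 8
    calc f * c / (6 ^ 8 * Real.log Q ^ 8) = f * (c * (1 / (6 ^ 8 * Real.log Q ^ 8))) := by ring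
      _ ≤ f * (c * (1 / 2 ^ J) ^ (2 * 4)) := by
          apply mul_le_mul_of_nonneg_left _ hf.le
          exact mul_le_mul_of_nonneg_left h1 hc.le
      _ ≤ _ := mul_le_mul_of_nonneg_left hprod hf.le
  have hψ : (Q : ℝ) / 2 ≤ lam1 Q := by
    have h1 := hpnt Q (by omega)
    rw [pow_one] at h1
    have h2 : C * (Q / Real.log Q) ≤ Q / 8 := by
      rw [mul_div_assoc', div_le_div_iff₀ hL0 (by norm_num)]
      nlinarith
    have h3 := (abs_le.1 h1).1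
    have h5 : (64 : ℝ) ≤ Q := by
      have h6 : Real.exp 8 ≤ Q := by
        rw [← Real.exp_log hQ0]
        exact Real.exp_le_exp.2 hL1
      have h7 : (2 : ℝ) ^ 8 ≤ Real.exp 8 := by
        have h8 : (2 : ℝ) ≤ Real.exp 1 := by linarith [Real.exp_one_gt_d9]
        calc (2 : ℝ) ^ 8 ≤ Real.exp 1 ^ 8 := pow_le_pow_left₀ (by norm_num) h8 8
          _ = Real.exp 8 := by rw [← Real.exp_nat_mul]; norm_num
      linarith
    linarith
  -- the error term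
  set D : ℕ := ⌊(Y : ℝ) ^ (49 / 200 : ℝ)⌋₊ with hD
  have hDD : (D : ℝ) ^ 2 ≤ Q / Real.log Q ^ B := by
    have h1 : (D : ℝ) ≤ (Y : ℝ) ^ (49 / 200 : ℝ) := Nat.floor_le (by positivity)
    have h2 : (D : ℝ) ^ 2 ≤ (Q : ℝ) ^ (49 / 50 : ℝ) := by
      calc (D : ℝ) ^ 2 ≤ ((Y : ℝ) ^ (49 / 200 : ℝ)) ^ 2 := pow_le_pow_left₀ (Nat.cast_nonneg _) h1 2
        _ = (Q : ℝ) ^ (49 / 50 : ℝ) := by
            rw [hYr, ← Real.rpow_natCast (Q : ℝ) 2, ← Real.rpow_mul hQ0.le, ← Real.rpow_natCast _ 2,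
              ← Real.rpow_mul hQ0.le]
            norm_num
    rw [le_div_iff₀ (by positivity)]
    calc (D : ℝ) ^ 2 * Real.log Q ^ B ≤ (Q : ℝ) ^ (49 / 50 : ℝ) * (Q : ℝ) ^ (1 / 50 : ℝ) := by gcongr
      _ = Q := by
          rw [← Real.rpow_add hQ0]
          norm_num
  have herr := hE Q (by omega) D hDD R hR (PZ Y (11 / 50)) (fun p hp => PZ_prime hp)
  have hmain := vv_main Y (11 / 50) cc R Q D (5 * Real.log Y) g1 (fun T hT h0 => Nat.le_floor (g2 T hT h0))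
  have hup : ∑ n ∈ Icc 1 Q, ArithmeticFunction.vonMangoldt n *
      VV (PZ Y (11 / 50)) cc (fun p => if p ∣ NN Y (11 / 50) R n then 1 else 0) ≤
      ∑ n ∈ Icc 1 Q, ArithmeticFunction.vonMangoldt n * W5 Y (NN Y (11 / 50) R n) := by
    apply sum_le_sum
    intro n _
    apply mul_le_mul_of_nonneg_left _ ArithmeticFunction.vonMangoldt_nonneg
    exact g3 _
  refine le_trans ?_ (hmain.trans hup)
  have hVnn : 0 ≤ VV (PZ Y (11 / 50)) cc h := le_trans (by positivity) hVlow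
  have k1 : (Q : ℝ) / 2 * (f * c / (6 ^ 8 * Real.log Q ^ 8)) ≤ lam1 Q * VV (PZ Y (11 / 50)) cc h :=
    mul_le_mul hψ hVlow (by positivity) (by linarith)
  have k2 : 5 * Real.log Y * ∑ T ∈ (PZ Y (11 / 50)).powerset.filter (fun T : Finset ℕ => ∏ p ∈ T, p ≤ D), er R Q T ≤
      10 * Real.log Q * (Q / Real.log Q ^ 10) := by
    rw [hlogY]
    have : 0 ≤ 5 * (2 * Real.log Q) := by positivity
    calc 5 * (2 * Real.log Q) * ∑ T ∈ (PZ Y (11 / 50)).powerset.filter (fun T : Finset ℕ => ∏ p ∈ T, p ≤ D), er R Q T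
        ≤ 5 * (2 * Real.log Q) * (Q / Real.log Q ^ 10) := mul_le_mul_of_nonneg_left herr this
      _ = _ := by ring
  have k3 : 10 * Real.log Q * (Q / Real.log Q ^ 10) ≤ f * c / (4 * 6 ^ 8) * (Q / Real.log Q ^ 8) := by
    have h1 : 10 * Real.log Q * (Q / Real.log Q ^ 10) = (10 / Real.log Q) * (Q / Real.log Q ^ 8) := by
      field_simp
    rw [h1]
    apply mul_le_mul_of_nonneg_right _ (by positivity)
    rw [div_le_iff₀ hL0]
    have h2 : 10 * (4 * 6 ^ 8) / (f * c) ≤ Real.log Q := by linarith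
    rw [div_le_iff₀ (by positivity)] at h2
    have h3 : f * c / (4 * 6 ^ 8) * Real.log Q = (Real.log Q * (f * c)) / (4 * 6 ^ 8) := by ring
    rw [h3, le_div_iff₀ (by norm_num)]
    linarith
  have k4 : (Q : ℝ) / 2 * (f * c / (6 ^ 8 * Real.log Q ^ 8)) = 2 * (f * c / (4 * 6 ^ 8) * (Q / Real.log Q ^ 8)) := by
    field_simp
    ring
  have k5 : lam1 Q * VV (PZ Y (11 / 50)) cc h = lam1 Q * VV (PZ Y (11 / 50)) cc (fun p => (rhoA R p : ℝ) / (p - 1 : ℝ)) := rfl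
  linarith

end Pool.Agent.J4H70.PA
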