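import Pool.Agent.J4H70.PA.Wt

/-! The weights `aa Q n`, summed over the `n ≤ Q` which avoid one class modulo each prime `p ≤ z`: the lower bound. -/

set_option autoImplicit false

namespace Pool.Agent.J4H70.PA

open Finset Filter
open Pool.Agent.H373R2.T7
open Pool.Agent.W23.DC
open Pool.Agent.Y882
open Pool.Agent.Y882.KW
open Pool.Agent.Y882.SI (QF QF_eval ro_quad_le)
open Pool.Agent.Y882.PX (ro ro_eq pr_mem)

/-- the conditions of the sieve -/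
def RR (E : ℕ → ℕ → Prop) (z p n : ℕ) : Prop := (p : ℤ) ∣ (n : ℤ) ^ 2 - 2 ∨ (p ≤ z ∧ E p n)

theorem sq_mod (p n : ℕ) : (p : ℤ) ∣ (n : ℤ) ^ 2 - 2 ↔ (p : ℤ) ∣ (((n % p : ℕ) : ℤ)) ^ 2 - 2 := by
  have h2 : (p : ℤ) ∣ (n : ℤ) - ((n % p : ℕ) : ℤ) := by
    push_cast
    exact Int.dvd_self_sub_emod
  have h1 : (p : ℤ) ∣ ((n : ℤ) ^ 2 - 2) - ((((n % p : ℕ) : ℤ)) ^ 2 - 2) := by
    have e : ((n : ℤ) ^ 2 - 2) - ((((n % p : ℕ) : ℤ)) ^ 2 - 2) = ((n : ℤ) - ((n % p : ℕ) : ℤ)) * (n + ((n % p : ℕ) : ℤ)) := by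
      ring
    rw [e]
    exact Dvd.dvd.mul_right h2 _
  exact dvd_iff_dvd_of_dvd_sub h1

open Classical in
theorem RR_few (E : ℕ → ℕ → Prop) (z p : ℕ) (hp : p.Prime)
    (h : ((range p).filter (fun r => ¬ p ∣ r ∧ E p r)).card ≤ 1) : rhoA (RR E z) p ≤ 3 := by
  unfold rhoA
  have h1 : (range p).filter (fun r => ¬ p ∣ r ∧ RR E z p r) ⊆
      (range p).filter (fun n : ℕ => (p : ℤ) ∣ (QF (-2)).eval (n : ℤ) + 0) ∪
        (range p).filter (fun r => ¬ p ∣ r ∧ E p r) := by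
    intro r hr
    rw [mem_filter] at hr
    rw [mem_union, mem_filter, mem_filter]
    rcases hr.2.2 with h2 | h2
    · left
      refine ⟨hr.1, ?_⟩
      rw [QF_eval]
      have e : (r : ℤ) ^ 2 + -2 + 0 = (r : ℤ) ^ 2 - 2 := by ring
      rw [e]
      exact h2
    · right
      exact ⟨hr.1, hr.2.1, h2.2⟩
  have h2 := (card_le_card h1).trans (card_union_le _ _)
  have h3 := ro_quad_le (-2) p hp
  rw [ro_eq] at h3
  have h4 : ((range p).filter (fun n : ℕ => (p : ℤ) ∣ (QF (-2)).eval (n : ℤ) + 0)).card ≤ 2 := by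
    convert h3
  omega

open Classical in
theorem RR_two (E : ℕ → ℕ → Prop) (z p : ℕ) (hp : p.Prime) (hE : ∀ n, E p n ↔ E p (n % p))
    (h : p ≤ z → ∃ r : ℕ, ¬ p ∣ r ∧ ¬ (p : ℤ) ∣ (r : ℤ) ^ 2 - 2 ∧ ¬ E p r) : rhoA (RR E z) p + 2 ≤ p := by
  obtain ⟨r, h1, h2⟩ : ∃ r : ℕ, ¬ p ∣ r ∧ ¬ RR E z p r := by
    rcases le_or_gt p z with h3 | h3
    · obtain ⟨r, h4, h5, h6⟩ := h h3
      refine ⟨r, h4, ?_⟩
      rintro (h7 | h7)
      · exact h5 h7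
      · exact h6 h7.2
    · refine ⟨1, fun h4 => hp.one_lt.ne' (Nat.dvd_one.1 h4), ?_⟩
      rintro (h7 | h7)
      · have h8 : (p : ℤ) ∣ 1 := by
          have e : (((1 : ℕ) : ℤ)) ^ 2 - 2 = -1 := by norm_num
          rw [e] at h7
          exact (dvd_neg.2 h7).trans (by norm_num)
        have h9 : p ∣ 1 := by exact_mod_cast h8
        exact hp.one_lt.ne' (Nat.dvd_one.1 h9)
      · omega
  have h3 : ¬ p ∣ r % p := by
    rw [Nat.dvd_iff_mod_eq_zero, Nat.mod_mod, ← Nat.dvd_iff_mod_eq_zero]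
    exact h1
  have h4 : ¬ RR E z p (r % p) := by
    rintro (h7 | h7)
    · exact h2 (Or.inl ((sq_mod p r).2 h7))
    · exact h2 (Or.inr ⟨h7.1, (hE r).2 h7.2⟩)
  have h5 : r % p < p := Nat.mod_lt _ hp.pos
  have h6 : (range p).filter (fun r => ¬ p ∣ r ∧ RR E z p r) ⊆ ((Ico 1 p).erase (r % p)) := by
    intro s hs
    rw [mem_filter, mem_range] at hs
    rw [mem_erase, mem_Ico]
    refine ⟨?_, ?_, hs.1⟩
    · rintro rfl
      exact h4 hs.2.2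
    · rcases Nat.eq_zero_or_pos s with h7 | h7
      · exact absurd (h7 ▸ dvd_zero p) hs.2.1
      · exact h7
  have h7 := card_le_card h6
  have h8 : r % p ∈ Ico 1 p := by
    rw [mem_Ico]
    refine ⟨?_, h5⟩
    rcases Nat.eq_zero_or_pos (r % p) with h9 | h9
    · rw [h9] at h3
      exact absurd (dvd_zero p) h3
    · exact h9
  rw [card_erase_of_mem h8, Nat.card_Ico] at h7
  have h9 := hp.two_le
  have h10 : rhoA (RR E z) p = ((range p).filter (fun r => ¬ p ∣ r ∧ RR E z p r)).card := rfl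
  have h11 : 1 ≤ (Ico 1 p).card := card_pos.2 ⟨_, h8⟩
  rw [Nat.card_Ico] at h11
  omega

/-- the weights of the products of the primes -/
theorem W5_NN (Q z n : ℕ) (E : ℕ → ℕ → Prop) (hn : n.Prime) (hzn : z < n) (hn2 : 3 ≤ n) (hY : 2 ≤ Q ^ 2)
    (hz : (z : ℝ) < ((Q ^ 2 : ℕ) : ℝ) ^ (3 / 50 : ℝ)) (hzQ : z ≤ Q ^ 2) :
    ((∃ p ∈ pz z, E p n) → W5 (Q ^ 2) (NN (Q ^ 2) (11 / 50) (RR E z) n) = 0) ∧
    ((∀ p ∈ pz z, ¬ E p n) → W5 (Q ^ 2) (NN (Q ^ 2) (11 / 50) (RR E z) n) = W5 (Q ^ 2) (n ^ 2 - 2)) := by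
  classical
  have hmem : ∀ p ∈ pz z, p ∈ PZ (Q ^ 2) (3 / 50) := by
    intro p hp
    rw [mem_pz] at hp
    unfold PZ
    rw [mem_filter, mem_Icc]
    refine ⟨⟨hp.2.one_le, hp.1.trans hzQ⟩, hp.2, (tt_lt _ p _ hY hp.2.pos).2 ?_⟩
    refine lt_of_le_of_lt ?_ hz
    exact_mod_cast hp.1
  have hmono : ∀ p ∈ PZ (Q ^ 2) (3 / 50), p ∈ PZ (Q ^ 2) (11 / 50) := by
    intro p hp
    unfold PZ at hp ⊢
    rw [mem_filter] at hp ⊢
    exact ⟨hp.1, hp.2.1, hp.2.2.trans (by norm_num)⟩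
  have hpn : ∀ p : ℕ, p.Prime → p ∣ n → p = n := fun p hp h => (Nat.prime_dvd_prime_iff_eq hp hn).1 h
  constructor
  · rintro ⟨p, hp, hE⟩
    have h1 := hmem p hp
    have h2 : p ∣ NN (Q ^ 2) (11 / 50) (RR E z) n := by
      rw [dvd_NN _ _ (hmono p h1)]
      rw [mem_pz] at hp
      refine ⟨fun h => ?_, Or.inr ⟨hp.1, hE⟩⟩
      have := hpn p hp.2 h
      omega
    unfold W5 WW
    rw [if_neg (fun h => h p h1 h2), zero_mul]
  · intro hE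
    have hiff : ∀ p ∈ PZ (Q ^ 2) (11 / 50), (p ∣ NN (Q ^ 2) (11 / 50) (RR E z) n ↔ p ∣ n ^ 2 - 2) := by
      intro p hp
      have hpp := PZ_prime hp
      rw [dvd_NN _ _ hp]
      have h4 : 2 ≤ n ^ 2 := by nlinarith
      have h5 : (p : ℤ) ∣ (n : ℤ) ^ 2 - 2 ↔ p ∣ n ^ 2 - 2 := by
        rw [← Int.natCast_dvd_natCast, Nat.cast_sub h4]
        push_cast
        rfl
      constructor
      · rintro ⟨_, h6 | h6⟩
        · exact h5.1 h6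
        · exact absurd h6.2 (hE p (mem_pz.2 ⟨h6.1, hpp⟩))
      · intro h6
        refine ⟨fun h7 => ?_, Or.inl (h5.2 h6)⟩
        have h8 := hpn p hpp h7
        rw [h8] at h6
        have h9 : n ∣ 2 := by
          have h10 : n ∣ n ^ 2 := dvd_pow_self n (by norm_num)
          have h11 : n ∣ n ^ 2 - (n ^ 2 - 2) := (Nat.dvd_sub h10 h6)
          have h12 : n ^ 2 - (n ^ 2 - 2) = 2 := by omega
          rwa [h12] at h11
        have := Nat.le_of_dvd (by norm_num) h9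
        omega
    unfold W5 WW
    have e1 : (∀ p ∈ PZ (Q ^ 2) (3 / 50), ¬ p ∣ NN (Q ^ 2) (11 / 50) (RR E z) n) ↔
        (∀ p ∈ PZ (Q ^ 2) (3 / 50), ¬ p ∣ n ^ 2 - 2) := by
      constructor
      · intro h p hp hd
        exact h p hp ((hiff p (hmono p hp)).2 hd)
      · intro h p hp hd
        exact h p hp ((hiff p (hmono p hp)).1 hd)
    have e2 : ∑ q ∈ pr (Q ^ 2) (3 / 50) (11 / 50), ((11 / 16 : ℝ) - 11 / 16 / (11 / 50) * tt (Q ^ 2) q) *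
        (if q ∣ NN (Q ^ 2) (11 / 50) (RR E z) n then 1 else 0) =
        ∑ q ∈ pr (Q ^ 2) (3 / 50) (11 / 50), ((11 / 16 : ℝ) - 11 / 16 / (11 / 50) * tt (Q ^ 2) q) *
        (if q ∣ n ^ 2 - 2 then 1 else 0) := by
      apply sum_congr rfl
      intro q hq
      have h6 : q ∈ PZ (Q ^ 2) (11 / 50) := by
        unfold pr at hq
        unfold PZ
        rw [mem_filter] at hq ⊢
        exact ⟨hq.1, hq.2.1, hq.2.2.2⟩
      rw [if_congr (hiff q h6) rfl rfl]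
    rw [if_congr e1 rfl rfl, e2]

open Classical in
/-- comparison of the two sums -/
theorem cmp_sum (Q z : ℕ) (E : ℕ → ℕ → Prop) (hY : 2 ≤ Q ^ 2) (hz2 : 2 ≤ z)
    (hz : (z : ℝ) < ((Q ^ 2 : ℕ) : ℝ) ^ (3 / 50 : ℝ)) (hzQ : z ≤ Q ^ 2) :
    ∑ n ∈ Icc 1 Q, ArithmeticFunction.vonMangoldt n * W5 (Q ^ 2) (NN (Q ^ 2) (11 / 50) (RR E z) n) ≤
      ∑ n ∈ (Icc 1 Q).filter (fun n => ∀ p ∈ pz z, ¬ E p n), aa Q n +
      ∑ n ∈ (Icc 1 Q).filter (fun n => ¬ (n.Prime ∧ z < n ∧ Sqf (Q ^ 2) n)), ArithmeticFunction.vonMangoldt n := by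
  rw [sum_filter, sum_filter, ← sum_add_distrib]
  apply sum_le_sum
  intro n _
  have hΛ : (0 : ℝ) ≤ ArithmeticFunction.vonMangoldt n := ArithmeticFunction.vonMangoldt_nonneg
  by_cases h : n.Prime ∧ z < n ∧ Sqf (Q ^ 2) n
  · rw [if_neg (not_not.2 h), add_zero]
    obtain ⟨h1, h2, h3⟩ := h
    obtain ⟨g1, g2⟩ := W5_NN Q z n E h1 h2 (by omega) hY hz hzQ
    by_cases hE : ∀ p ∈ pz z, ¬ E p n
    · rw [if_pos hE, g2 hE, ArithmeticFunction.vonMangoldt_apply_prime h1]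
      unfold aa
      rw [if_pos ⟨h1, h3⟩]
      exact mul_le_mul_of_nonneg_left (le_max_right _ _) (Real.log_natCast_nonneg n)
    · rw [if_neg hE]
      push Not at hE
      rw [g1 hE, mul_zero]
  · rw [if_pos h]
    have h1 : ArithmeticFunction.vonMangoldt n * W5 (Q ^ 2) (NN (Q ^ 2) (11 / 50) (RR E z) n) ≤
        ArithmeticFunction.vonMangoldt n :=
      mul_le_of_le_one_right hΛ (W5_le_one _ _)
    have h2 : 0 ≤ (if ∀ p ∈ pz z, ¬ E p n then aa Q n else 0) := by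
      split_ifs
      · exact aa_nonneg Q n
      · exact le_rfl
    linarith

open Classical in
/-- **the lower bound for the weights** -/
theorem aa_low : ∃ c0 : ℝ, 0 < c0 ∧ ∀ A : ℕ, ∃ Q0 : ℕ, ∀ Q : ℕ, Q0 ≤ Q → ∀ z : ℕ, 2 ≤ z → (z : ℝ) ≤ Real.log Q ^ A →
    ∀ E : ℕ → ℕ → Prop, (∀ p n, E p n ↔ E p (n % p)) →
    (∀ p : ℕ, p.Prime → ((range p).filter (fun r => ¬ p ∣ r ∧ E p r)).card ≤ 1) →
    (∀ p : ℕ, p.Prime → p ≤ z → ∃ r : ℕ, ¬ p ∣ r ∧ ¬ (p : ℤ) ∣ (r : ℤ) ^ 2 - 2 ∧ ¬ E p r) →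
    c0 * (Q / Real.log Q ^ 8) ≤ ∑ n ∈ (Icc 1 Q).filter (fun n => ∀ p ∈ pz z, ¬ E p n), aa Q n := by
  obtain ⟨ε₁, c1, hε₁, hε₁', hc1, Q1, H1⟩ := low
  obtain ⟨Q2, H2⟩ := bad_sum
  refine ⟨c1 / 2, by positivity, fun A => ?_⟩
  have evp : ∀ (B : ℕ) (ε K : ℝ), 0 < ε → 0 < K → ∀ᶠ Q : ℕ in atTop, K * Real.log Q ^ B ≤ (Q : ℝ) ^ ε := by
    intro B ε K hε hK
    have h1 := (isLittleO_log_rpow_rpow_atTop (B : ℝ) hε).bound (show (0 : ℝ) < 1 / K by positivity)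
    filter_upwards [tendsto_natCast_atTop_atTop.eventually h1, eventually_ge_atTop 1] with Q hQ hQ1
    have hQr : (1 : ℝ) ≤ Q := by exact_mod_cast hQ1
    rw [Real.norm_of_nonneg (by have := Real.log_nonneg hQr; positivity), Real.norm_of_nonneg (by positivity),
      Real.rpow_natCast] at hQ
    calc K * Real.log Q ^ B ≤ K * (1 / K * (Q : ℝ) ^ ε) := mul_le_mul_of_nonneg_left hQ hK.le
      _ = _ := by field_simp
  obtain ⟨Q3, H3⟩ := eventually_atTop.1 ((evp A ε₁ 2 hε₁ (by norm_num)).and ((evp A (1 / 2) 1 (by norm_num) (by norm_num)).and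
    ((evp 9 (3 / 25) (18 / c1) (by norm_num) (by positivity)).and (evp A (3 / 50) 2 (by norm_num) (by norm_num)))))
  refine ⟨Q1 + Q2 + Q3 + 3, fun Q hQ z hz2 hz E hE1 hE2 hE3 => ?_⟩
  obtain ⟨e1, e2, e3, e4⟩ := H3 Q (by omega)
  have hQ3 : 3 ≤ Q := by omega
  have hQr : (3 : ℝ) ≤ Q := by exact_mod_cast hQ3
  have hQ0 : (0 : ℝ) < Q := by linarith
  have hQQ : Q ≤ Q ^ 2 := Nat.le_self_pow (by norm_num) Q
  have hYr : (((Q ^ 2 : ℕ) : ℝ)) = (Q : ℝ) ^ 2 := by push_cast; rfl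
  have hL0 : 0 < Real.log Q := Real.log_pos (by linarith)
  have hL1 : 1 ≤ Real.log Q := by
    rw [Real.le_log_iff_exp_le hQ0]
    linarith [Real.exp_one_lt_d9]
  have hz0 : (2 : ℝ) ≤ z := by exact_mod_cast hz2
  have hge : ∀ ε : ℝ, 0 ≤ ε → (Q : ℝ) ^ ε ≤ ((Q ^ 2 : ℕ) : ℝ) ^ ε := by
    intro ε hε
    apply Real.rpow_le_rpow hQ0.le _ hε
    exact_mod_cast hQQ
  have hzε : (z : ℝ) < ((Q ^ 2 : ℕ) : ℝ) ^ ε₁ := by
    have := hge ε₁ hε₁.le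
    linarith
  have hzζ : (z : ℝ) < ((Q ^ 2 : ℕ) : ℝ) ^ (3 / 50 : ℝ) := by
    have := hge (3 / 50) (by norm_num)
    linarith
  have hsq : (Q : ℝ) ^ (1 / 2 : ℝ) ≤ Q := by
    calc (Q : ℝ) ^ (1 / 2 : ℝ) ≤ (Q : ℝ) ^ (1 : ℝ) := Real.rpow_le_rpow_of_exponent_le (by linarith) (by norm_num)
      _ = Q := Real.rpow_one _
  have hzQ' : (z : ℝ) ≤ (Q : ℝ) ^ (1 / 2 : ℝ) := by linarith
  have hzQ : z ≤ Q := by exact_mod_cast hzQ'.trans hsq
  have hlow := H1 Q (by omega) (RR E z) ⟨fun p n => by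
      unfold RR
      rw [← sq_mod p n, ← hE1 p n], fun p hp => RR_few E z p hp (hE2 p hp)⟩
    (fun p hp => RR_two E z p hp (fun n => hE1 p n) (hE3 p hp)) (fun p hp hpY n => by
      unfold RR
      constructor
      · rintro (h | h)
        · exact h
        · exfalso
          have h1 : (p : ℝ) ≤ z := by exact_mod_cast h.1
          linarith
      · exact fun h => Or.inl h)
  have hcmp := cmp_sum Q z E (by omega) hz2 hzζ (by omega)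
  have hbad := H2 Q (by omega) z hzQ
  have hmax : 2 * √Q * Real.log Q + z * Real.log Q + Real.log Q * (4 * (Q : ℝ) ^ (22 / 25 : ℝ) + 2 * (Q : ℝ) ^ (11 / 25 : ℝ)) ≤
      c1 / 2 * (Q / Real.log Q ^ 8) := by
    have k1 : (Q : ℝ) ^ (1 / 2 : ℝ) ≤ (Q : ℝ) ^ (22 / 25 : ℝ) :=
      Real.rpow_le_rpow_of_exponent_le (by linarith) (by norm_num)
    have k2 : (Q : ℝ) ^ (11 / 25 : ℝ) ≤ (Q : ℝ) ^ (22 / 25 : ℝ) :=
      Real.rpow_le_rpow_of_exponent_le (by linarith) (by norm_num)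
    have k3 : √(Q : ℝ) = (Q : ℝ) ^ (1 / 2 : ℝ) := Real.sqrt_eq_rpow _
    have k4 : 2 * √Q * Real.log Q + z * Real.log Q + Real.log Q * (4 * (Q : ℝ) ^ (22 / 25 : ℝ) + 2 * (Q : ℝ) ^ (11 / 25 : ℝ)) ≤
        9 * Real.log Q * (Q : ℝ) ^ (22 / 25 : ℝ) := by
      rw [k3]
      nlinarith
    refine k4.trans ?_
    rw [mul_div_assoc', le_div_iff₀ (by positivity)]
    have k5 : (Q : ℝ) = (Q : ℝ) ^ (22 / 25 : ℝ) * (Q : ℝ) ^ (3 / 25 : ℝ) := by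
      rw [← Real.rpow_add hQ0]
      norm_num
    have k6 : 9 * Real.log Q * (Q : ℝ) ^ (22 / 25 : ℝ) * Real.log Q ^ 8 =
        (c1 / 2) * (Q : ℝ) ^ (22 / 25 : ℝ) * (18 / c1 * Real.log Q ^ 9) := by
      field_simp
      ring
    rw [k6]
    calc (c1 / 2) * (Q : ℝ) ^ (22 / 25 : ℝ) * (18 / c1 * Real.log Q ^ 9) ≤
        (c1 / 2) * (Q : ℝ) ^ (22 / 25 : ℝ) * (Q : ℝ) ^ (3 / 25 : ℝ) := mul_le_mul_of_nonneg_left e3 (by positivity)
      _ = c1 / 2 * ((Q : ℝ) ^ (22 / 25 : ℝ) * (Q : ℝ) ^ (3 / 25 : ℝ)) := by ring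
      _ = c1 / 2 * Q := by rw [← k5]
  have hfin : c1 * (Q / Real.log Q ^ 8) = c1 / 2 * (Q / Real.log Q ^ 8) + c1 / 2 * (Q / Real.log Q ^ 8) := by ring
  linarith

end Pool.Agent.J4H70.PA
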