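import Pool.Agent.J4H70.PA.Exc

/-! The two ranges of the slope `m`. -/

set_option autoImplicit false

namespace Pool.Agent.J4H70.PA

open Finset Filter
open Pool.Agent.H373R2.T7

/-- there is a prime `p < n` such that `q = ⌊(n - p) / m⌋` is prime and `q ^ 2 - 2` has at most five prime factors,
counted with multiplicity -/
def Rep (m n : ℕ) : Prop :=
  ∃ p q : ℕ, p.Prime ∧ p < n ∧ q = (n - p) / m ∧ q.Prime ∧ (q ^ 2 - 2).primeFactorsList.length ≤ 5

/-- the choice of `z` -/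
theorem z_facts (L : ℝ) (B : ℕ) (hL : 4 ≤ L) : L ^ B ≤ ((⌈L ^ B⌉₊ + 2 : ℕ) : ℝ) ∧ ((⌈L ^ B⌉₊ + 2 : ℕ) : ℝ) ≤ L ^ (B + 1) := by
  have h1 : 1 ≤ L ^ B := one_le_pow₀ (by linarith)
  have h2 : L ^ B ≤ (⌈L ^ B⌉₊ : ℝ) := Nat.le_ceil _
  have h3 : (⌈L ^ B⌉₊ : ℝ) < L ^ B + 1 := Nat.ceil_lt_add_one (by positivity)
  push_cast
  constructor
  · linarith
  · calc (⌈L ^ B⌉₊ : ℝ) + 2 ≤ L ^ B * 4 := by linarith
      _ ≤ L ^ B * L := mul_le_mul_of_nonneg_left hL (by positivity)
      _ = L ^ (B + 1) := by rw [pow_succ]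

open Classical in
/-- the local conditions of `N - m q` -/
theorem locE (m N : ℕ) (hcop : N.Coprime m) (hodd : Odd (N + m)) :
    (∀ p n : ℕ, (p : ℤ) ∣ (N : ℤ) - m * n ↔ (p : ℤ) ∣ (N : ℤ) - m * ((n % p : ℕ) : ℤ)) ∧
    (∀ p : ℕ, p.Prime → ((range p).filter (fun r : ℕ => ¬ p ∣ r ∧ (p : ℤ) ∣ (N : ℤ) - m * r)).card ≤ 1) ∧
    (∀ p : ℕ, p.Prime → ∃ r : ℕ, ¬ p ∣ r ∧ ¬ (p : ℤ) ∣ (r : ℤ) ^ 2 - 2 ∧ ¬ (p : ℤ) ∣ (N : ℤ) - m * r) := by
  refine ⟨?_, ?_, ?_⟩
  · intro p n
    have h2 : (p : ℤ) ∣ (n : ℤ) - ((n % p : ℕ) : ℤ) := by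
      push_cast
      exact Int.dvd_self_sub_emod
    have h1 : (p : ℤ) ∣ ((N : ℤ) - m * n) - ((N : ℤ) - m * ((n % p : ℕ) : ℤ)) := by
      have e : ((N : ℤ) - m * n) - ((N : ℤ) - m * ((n % p : ℕ) : ℤ)) = -(m * ((n : ℤ) - ((n % p : ℕ) : ℤ))) := by ring
      rw [e, dvd_neg]
      exact Dvd.dvd.mul_left h2 _
    exact dvd_iff_dvd_of_dvd_sub h1
  · intro p hp
    have hpp : Prime (p : ℤ) := Nat.prime_iff_prime_int.1 hp
    rw [card_le_one]
    intro a ha b hb
    rw [mem_filter, mem_range] at ha hb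
    have hpm : ¬ (p : ℤ) ∣ (m : ℤ) := by
      intro h
      have h1 : (p : ℤ) ∣ (N : ℤ) := by
        have := dvd_add ha.2.2 (Dvd.dvd.mul_right h (a : ℤ))
        have e : (N : ℤ) - m * a + m * a = N := by ring
        rwa [e] at this
      have h2 : p ∣ N := by exact_mod_cast h1
      have h3 : p ∣ m := by exact_mod_cast h
      exact (Nat.Prime.not_coprime_iff_dvd.2 ⟨p, hp, h2, h3⟩) hcop
    have h1 : (p : ℤ) ∣ (m : ℤ) * ((a : ℤ) - b) := by
      have := dvd_sub hb.2.2 ha.2.2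
      have e : (N : ℤ) - m * b - (N - m * a) = m * (a - b) := by ring
      rwa [e] at this
    have h2 := (hpp.dvd_or_dvd h1).resolve_left hpm
    obtain ⟨k, hk⟩ := h2
    have ha2 : (a : ℤ) < p := by exact_mod_cast ha.1
    have hb2 : (b : ℤ) < p := by exact_mod_cast hb.1
    have hp0 : (0 : ℤ) < p := by exact_mod_cast hp.pos
    have h3 : k < 1 := by
      by_contra h4
      have : (p : ℤ) * 1 ≤ p * k := mul_le_mul_of_nonneg_left (by omega) hp0.le
      omega
    have h4 : -1 < k := by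
      by_contra h4
      have : (p : ℤ) * k ≤ p * (-1) := mul_le_mul_of_nonneg_left (by omega) hp0.le
      omega
    have h5 : k = 0 := by omega
    rw [h5, mul_zero] at hk
    omega
  · intro p hp
    have hpp : Prime (p : ℤ) := Nat.prime_iff_prime_int.1 hp
    have hp1 : ¬ (p : ℤ) ∣ 1 := fun h => hpp.not_isUnit (isUnit_of_dvd_one h)
    by_cases h1 : (p : ℤ) ∣ (N : ℤ) - m * 1
    · -- `r = p - 1`
      have h1p : 1 ≤ p := hp.one_le
      have hc : ((p - 1 : ℕ) : ℤ) = p - 1 := by push_cast [Nat.cast_sub h1p]; ring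
      refine ⟨p - 1, ?_, ?_, ?_⟩
      · intro h
        have h2 : (p : ℤ) ∣ ((p - 1 : ℕ) : ℤ) := by exact_mod_cast h
        rw [hc] at h2
        have := dvd_sub (dvd_refl (p : ℤ)) h2
        have e : (p : ℤ) - (p - 1) = 1 := by ring
        rw [e] at this
        exact hp1 this
      · intro h
        rw [hc] at h
        have h2 : (p : ℤ) ∣ p * (p - 2) := Dvd.intro _ rfl
        have := dvd_sub h2 h
        have e : (p : ℤ) * (p - 2) - ((p - 1) ^ 2 - 2) = 1 := by ring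
        rw [e] at this
        exact hp1 this
      · intro h
        rw [hc] at h
        have h0 : (p : ℤ) ∣ (N : ℤ) + m := by
          have h2 : (p : ℤ) ∣ m * p := Dvd.intro_left _ rfl
          have := dvd_add h h2
          have e : (N : ℤ) - m * (p - 1) + m * p = N + m := by ring
          rwa [e] at this
        have h3 : (p : ℤ) ∣ 2 * N := by
          have := dvd_add h1 h0
          have e2 : (N : ℤ) - m * 1 + (N + m) = 2 * N := by ring
          rwa [e2] at this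
        have h4 : (p : ℤ) ∣ 2 * m := by
          have := dvd_sub h0 h1
          have e2 : (N : ℤ) + m - (N - m * 1) = 2 * m := by ring
          rwa [e2] at this
        by_cases hp2 : p = 2
        · subst hp2
          have h5 : (2 : ℕ) ∣ N + m := by exact_mod_cast h0
          obtain ⟨t, ht⟩ := hodd
          omega
        · have h6 : ¬ (p : ℤ) ∣ 2 := by
            intro h7
            have h8 : p ∣ 2 := by exact_mod_cast h7
            exact hp2 ((Nat.prime_dvd_prime_iff_eq hp Nat.prime_two).1 h8)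
          have h7 : p ∣ N := by exact_mod_cast (hpp.dvd_or_dvd h3).resolve_left h6
          have h8 : p ∣ m := by exact_mod_cast (hpp.dvd_or_dvd h4).resolve_left h6
          exact (Nat.Prime.not_coprime_iff_dvd.2 ⟨p, hp, h7, h8⟩) hcop
    · refine ⟨1, ?_, ?_, ?_⟩
      · intro h
        exact hp.one_lt.ne' (Nat.dvd_one.1 h)
      · intro h
        have e : (((1 : ℕ) : ℤ)) ^ 2 - 2 = -1 := by norm_num
        rw [e, dvd_neg] at h
        exact hp1 h
      · push_cast
        exact h1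

open Classical in
/-- small slopes -/
theorem reg1 (U A : ℕ) : ∃ x0 : ℕ, ∀ x : ℕ, x0 ≤ x → ∀ m : ℕ, 1 ≤ m → (m : ℝ) ≤ Real.log x ^ A →
    (((Ioc (x / 2) x).filter (fun n : ℕ => (∃ r < m, (n - r).Coprime m ∧ Odd (n - r + m)) ∧ ¬ Rep m n)).card : ℝ) ≤
      x / Real.log x ^ U := by
  obtain ⟨c0, hc0, hlow⟩ := aa_low
  set U' := U + A + 9 with hU'
  obtain ⟨B0, hexc⟩ := exc U'
  obtain ⟨x1, h1⟩ := hexc (B0 + 1)
  obtain ⟨Q0, h2⟩ := hlow (B0 + 2)
  obtain ⟨n1, hn1⟩ := ev_L' (8 / c0 + 2 * 2 ^ (B0 + 1) + 8)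
  obtain ⟨n2, hn2⟩ := ev_log' A (8 + (Q0 + 1))
  refine ⟨x1 + n1 + n2 + Q0 ^ 2 + 16, fun x hx m hm hmA => ?_⟩
  have hL' := hn1 x (by omega)
  have hs := hn2 x (by omega)
  obtain ⟨L, hLd⟩ : ∃ L, L = Real.log x := ⟨_, rfl⟩
  rw [← hLd] at hL' hs hmA ⊢
  have hc8 : 0 < 8 / c0 := by positivity
  have h2B : (0 : ℝ) < 2 * 2 ^ (B0 + 1) := by positivity
  have hL8 : 8 ≤ L := by linarith
  have hL0 : 0 < L := by linarith
  have hL1 : 1 ≤ L := by linarith
  have hx16 : 16 ≤ x := by omega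
  have hxr : (16 : ℝ) ≤ x := by exact_mod_cast hx16
  have hx0 : (0 : ℝ) < x := by linarith
  have hm0 : (0 : ℝ) < m := by exact_mod_cast (by omega : 0 < m)
  have hm1 : (1 : ℝ) ≤ m := by exact_mod_cast hm
  have hLA : 1 ≤ L ^ A := one_le_pow₀ hL1
  have hss : √(x : ℝ) * √(x : ℝ) = x := Real.mul_self_sqrt hx0.le
  have hsx0 : 0 < √(x : ℝ) := Real.sqrt_pos.2 hx0
  -- `8 m √x ≤ x`
  have hQ0r : (0 : ℝ) ≤ Q0 := Nat.cast_nonneg _
  have hm8 : 8 * (m : ℝ) * √x ≤ x := by
    have h3 : 8 * (m : ℝ) ≤ √(x : ℝ) := by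
      calc 8 * (m : ℝ) ≤ 8 * L ^ A := by linarith
        _ ≤ (8 + (Q0 + 1)) * L ^ A := by nlinarith
        _ ≤ √x := hs
    calc 8 * (m : ℝ) * √x ≤ √x * √x := mul_le_mul_of_nonneg_right h3 hsx0.le
      _ = x := hss
  obtain ⟨Q, hQ⟩ : ∃ Q, Q = x / (4 * m) := ⟨_, rfl⟩
  have hQlt : (x : ℝ) / (4 * m) < Q + 1 := by
    rw [hQ]
    have := Nat.lt_floor_add_one ((x : ℝ) / ((4 * m : ℕ) : ℝ))
    rw [Nat.floor_div_eq_div] at this
    push_cast at this
    exact this
  have hQge : (x : ℝ) / (8 * m) ≤ Q := by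
    have h3 : 1 ≤ (x : ℝ) / (8 * m) := by
      rw [le_div_iff₀ (by positivity)]
      have : 1 ≤ √(x : ℝ) := by
        rw [Real.one_le_sqrt]
        linarith
      nlinarith
    have h4 : (x : ℝ) / (4 * m) = x / (8 * m) + x / (8 * m) := by field_simp; ring
    linarith
  have hQs : √(x : ℝ) ≤ Q := by
    refine le_trans ?_ hQge
    rw [le_div_iff₀ (by positivity)]
    linarith
  have hQQ0 : Q0 ≤ Q := by
    have h3 : (Q0 : ℝ) ≤ √(x : ℝ) := by
      calc (Q0 : ℝ) ≤ (8 + (Q0 + 1)) * 1 := by linarith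
        _ ≤ (8 + (Q0 + 1)) * L ^ A := by
            apply mul_le_mul_of_nonneg_left hLA
            linarith
        _ ≤ √x := hs
    exact_mod_cast h3.trans hQs
  have hQ4 : (4 : ℝ) ≤ Q := by
    refine le_trans ?_ hQs
    rw [show (4 : ℝ) = √16 by rw [show (16 : ℝ) = 4 ^ 2 by norm_num, Real.sqrt_sq (by norm_num)]]
    exact Real.sqrt_le_sqrt hxr
  have hQp : (0 : ℝ) < Q := by linarith
  have hQx : (Q : ℝ) ≤ x := by
    rw [hQ]
    exact_mod_cast Nat.div_le_self _ _
  have hlQ1 : L / 2 ≤ Real.log Q := by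
    have h3 := Real.log_le_log hsx0 hQs
    rw [Real.log_sqrt hx0.le, ← hLd] at h3
    exact h3
  have hlQ2 : Real.log Q ≤ L := by
    rw [hLd]
    exact Real.log_le_log hQp hQx
  have hlQ0 : 0 < Real.log Q := by linarith
  obtain ⟨z, hz⟩ : ∃ z, z = ⌈L ^ B0⌉₊ + 2 := ⟨_, rfl⟩
  obtain ⟨hz1, hz2⟩ := z_facts L B0 (by linarith)
  rw [← hz] at hz1 hz2
  have hz3 : (z : ℝ) ≤ Real.log Q ^ (B0 + 2) := by
    calc (z : ℝ) ≤ L ^ (B0 + 1) := hz2
      _ ≤ (2 * Real.log Q) ^ (B0 + 1) := pow_le_pow_left₀ hL0.le (by linarith) _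
      _ = 2 ^ (B0 + 1) * Real.log Q ^ (B0 + 1) := by rw [mul_pow]
      _ ≤ Real.log Q * Real.log Q ^ (B0 + 1) := by
          apply mul_le_mul_of_nonneg_right _ (by positivity)
          linarith
      _ = _ := by ring
  have hmQ : 4 * (m * Q) ≤ x := by
    rw [hQ]
    have := Nat.mul_div_le x (4 * m)
    calc 4 * (m * (x / (4 * m))) = 4 * m * (x / (4 * m)) := by ring
      _ ≤ x := this
  set w : ℕ → ℝ := fun t => if m ∣ t ∧ t / m ≤ Q then aa Q (t / m) else 0 with hw
  have hw0 : ∀ t, 0 ≤ w t := by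
    intro t
    simp only [hw]
    split_ifs
    · exact aa_nonneg _ _
    · exact le_rfl
  have hwL : ∀ t ∈ Icc 1 x, |w t| ≤ Real.log x := by
    intro t ht
    rw [mem_Icc] at ht
    rw [abs_of_nonneg (hw0 t)]
    simp only [hw]
    split_ifs with h3
    · refine (aa_le Q (t / m)).trans ?_
      rcases Nat.eq_zero_or_pos (t / m) with h4 | h4
      · rw [h4, Nat.cast_zero, Real.log_zero, ← hLd]
        exact hL0.le
      · apply Real.log_le_log (by exact_mod_cast h4)
        exact_mod_cast (Nat.div_le_self t m).trans ht.2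
    · rw [← hLd]
      exact hL0.le
  have hcard := h1 x (by omega) z (by rw [← hLd]; exact hz1) (by rw [← hLd]; exact hz2) w hwL
  rw [← hLd] at hcard
  -- the model
  have hmodel : ∀ N : ℕ, x / 4 < N → m * Q < N → N ≤ x → N.Coprime m → Odd (N + m) →
      (x : ℝ) / L ^ U' < ∑ t ∈ Icc 1 x, w t * lamzI z ((N : ℤ) - t) := by
    intro N hN1 hN2 hN3 hcop hodd
    obtain ⟨l1, l2, l3⟩ := locE m N hcop hodd
    have h3 := h2 Q hQQ0 z (by omega) hz3 (fun p n => (p : ℤ) ∣ (N : ℤ) - m * n) l1 (fun p hp => by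
      convert l2 p hp) (fun p hp _ => l3 p hp)
    have h4 : ∑ n ∈ (Icc 1 Q).filter (fun n : ℕ => ∀ p ∈ pz z, ¬ (p : ℤ) ∣ (N : ℤ) - m * n), aa Q n ≤
        ∑ t ∈ Icc 1 x, w t * lamzI z ((N : ℤ) - t) := by
      have hinj : Set.InjOn (fun n : ℕ => m * n) (((Icc 1 Q).filter (fun n : ℕ => ∀ p ∈ pz z, ¬ (p : ℤ) ∣ (N : ℤ) - m * n) : Finset ℕ) : Set ℕ) := by
        intro a _ b _ h
        exact Nat.eq_of_mul_eq_mul_left (by omega) h
      calc ∑ n ∈ (Icc 1 Q).filter (fun n : ℕ => ∀ p ∈ pz z, ¬ (p : ℤ) ∣ (N : ℤ) - m * n), aa Q n ≤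
          ∑ n ∈ (Icc 1 Q).filter (fun n : ℕ => ∀ p ∈ pz z, ¬ (p : ℤ) ∣ (N : ℤ) - m * n),
            w (m * n) * lamzI z ((N : ℤ) - ((m * n : ℕ) : ℤ)) := by
            apply sum_le_sum
            intro n hn
            rw [mem_filter, mem_Icc] at hn
            have h5 : w (m * n) = aa Q n := by
              simp only [hw]
              have h6 : m * n / m = n := Nat.mul_div_cancel_left n (by omega)
              rw [h6, if_pos ⟨Nat.dvd_mul_right m n, hn.1.2⟩]
            have h7 : m * n ≤ m * Q := Nat.mul_le_mul_left m hn.1.2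
            rw [h5, lamzI_eq z _ (by omega), if_pos (by
              intro p hp
              push_cast
              exact hn.2 p hp)]
            apply le_mul_of_one_le_right (aa_nonneg _ _)
            exact (one_le_inv₀ (Vz_pos z)).2 (Vz_le_one z)
        _ = ∑ t ∈ ((Icc 1 Q).filter (fun n : ℕ => ∀ p ∈ pz z, ¬ (p : ℤ) ∣ (N : ℤ) - m * n)).image (fun n => m * n),
            w t * lamzI z ((N : ℤ) - t) := by
            rw [sum_image hinj]
        _ ≤ _ := by
            apply sum_le_sum_of_subset_of_nonneg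
            · intro t ht
              rw [mem_image] at ht
              obtain ⟨n, hn, rfl⟩ := ht
              rw [mem_filter, mem_Icc] at hn
              rw [mem_Icc]
              have h7 : m * n ≤ m * Q := Nat.mul_le_mul_left m hn.1.2
              have h8 : 1 ≤ m * n := Nat.mul_pos (by omega) (by omega)
              omega
            · intro t _ _
              exact mul_nonneg (hw0 t) (lamzI_nonneg _ _)
    refine lt_of_lt_of_le ?_ (h3.trans (le_trans (le_of_eq (by congr)) h4))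
    have h5 : c0 * (x / (8 * m) / L ^ 8) ≤ c0 * (Q / Real.log Q ^ 8) := by
      apply mul_le_mul_of_nonneg_left _ hc0.le
      apply div_le_div₀ hQp.le hQge (by positivity)
      exact pow_le_pow_left₀ hlQ0.le hlQ2 8
    refine lt_of_lt_of_le ?_ h5
    have h6 : c0 * (x / (8 * L ^ A) / L ^ 8) ≤ c0 * (x / (8 * m) / L ^ 8) := by
      apply mul_le_mul_of_nonneg_left _ hc0.le
      apply div_le_div_of_nonneg_right _ (by positivity)
      apply div_le_div_of_nonneg_left hx0.le (by positivity)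
      linarith
    refine lt_of_lt_of_le ?_ h6
    have h7 : c0 * (x / (8 * L ^ A) / L ^ 8) = (c0 / 8 * L * L ^ U) * (x / L ^ U') := by
      rw [hU', pow_add, pow_add]
      field_simp
    rw [h7]
    apply lt_mul_of_one_lt_left (by positivity)
    have h8 : 8 / c0 < L := by linarith
    rw [div_lt_iff₀ hc0] at h8
    have h9 : 1 < c0 / 8 * L := by
      rw [div_mul_eq_mul_div, lt_div_iff₀ (by norm_num)]
      linarith
    calc (1 : ℝ) < c0 / 8 * L := h9
      _ ≤ c0 / 8 * L * L ^ U := le_mul_of_one_le_right (by positivity) (one_le_pow₀ hL1)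
  -- the exceptional set
  have hsub : (Ioc (x / 2) x).filter (fun n : ℕ => (∃ r < m, (n - r).Coprime m ∧ Odd (n - r + m)) ∧ ¬ Rep m n) ⊆
      (range m).biUnion (fun r => (EX w z x U').image (fun N => N + r)) := by
    intro n hn
    rw [mem_filter, mem_Ioc] at hn
    obtain ⟨⟨hn1, hn2⟩, ⟨r, hr, hcop, hodd⟩, hrep⟩ := hn
    rw [mem_biUnion]
    refine ⟨r, mem_range.2 hr, ?_⟩
    rw [mem_image]
    have hm8' : 8 * m ≤ x := by
      have h3 : 8 * (m : ℝ) ≤ x := by
        have : 1 ≤ √(x : ℝ) := by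
          rw [Real.one_le_sqrt]
          linarith
        nlinarith
      exact_mod_cast h3
    refine ⟨n - r, ?_, by omega⟩
    by_contra hE
    apply hrep
    have h3 := hmodel (n - r) (by omega) (by omega) (by omega) hcop hodd
    rw [hLd] at h3
    obtain ⟨t, ht, ht1, ht2⟩ := pos_ex w z x U' (n - r) hw0 (mem_Icc.2 ⟨by omega, by omega⟩) hE h3
    rw [mem_Icc] at ht
    simp only [hw] at ht1
    split_ifs at ht1 with h4
    · obtain ⟨⟨q, hq⟩, h5⟩ := h4
      have h6 : t / m = q := by rw [hq]; exact Nat.mul_div_cancel_left q (by omega)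
      rw [h6] at ht1 h5
      obtain ⟨g1, g2⟩ := aa_pos Q q h5 ht1
      refine ⟨(((n - r : ℕ) : ℤ) - t).toNat, q, ht2, ?_, ?_, g1, g2⟩
      · have := ht2.pos
        omega
      · have h7 := ht2.pos
        have h8 : n - (((n - r : ℕ) : ℤ) - t).toNat = r + m * q := by
          rw [hq] at h7 ⊢
          omega
        rw [h8, Nat.add_mul_div_left _ _ (by omega), Nat.div_eq_of_lt hr, zero_add]
    · exact absurd ht1 (lt_irrefl _)
  have hc1 : ((Ioc (x / 2) x).filter (fun n : ℕ => (∃ r < m, (n - r).Coprime m ∧ Odd (n - r + m)) ∧ ¬ Rep m n)).card ≤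
      m * (EX w z x U').card := by
    refine (card_le_card hsub).trans (card_biUnion_le.trans ?_)
    calc ∑ r ∈ range m, ((EX w z x U').image (fun N => N + r)).card ≤ ∑ _r ∈ range m, (EX w z x U').card :=
          sum_le_sum fun r _ => card_image_le
      _ = m * (EX w z x U').card := by rw [sum_const, card_range, smul_eq_mul]
  calc (((Ioc (x / 2) x).filter (fun n : ℕ => (∃ r < m, (n - r).Coprime m ∧ Odd (n - r + m)) ∧ ¬ Rep m n)).card : ℝ) ≤
      m * (EX w z x U').card := by exact_mod_cast hc1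
    _ ≤ L ^ A * (x / L ^ U') := mul_le_mul hmA hcard (Nat.cast_nonneg _) (by positivity)
    _ = x / L ^ U * (1 / L ^ 9) := by
        rw [hU', pow_add, pow_add]
        field_simp
    _ ≤ x / L ^ U * 1 := by
        apply mul_le_mul_of_nonneg_left _ (by positivity)
        rw [div_le_one (by positivity)]
        exact one_le_pow₀ hL1
    _ = _ := mul_one _

end Pool.Agent.J4H70.PA
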