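import Pool.Agent.J4H70.PA.Reg

/-! The two ranges of the slope `m`: large slopes. -/

set_option autoImplicit false

namespace Pool.Agent.J4H70.PA

open Finset Filter
open Pool.Agent.H373R2.T7

/-- the lower bound for the model, from blocks -/
theorem block_low (m Q x N z : ℕ) (hm : 1 ≤ m) (v : ℕ → ℝ) (hv : ∀ q, 0 ≤ v q) (S : Finset ℕ)
    (hS : ∀ q ∈ S, 1 ≤ q ∧ q ≤ Q) (hQx : m * (Q + 1) ≤ x + 1) (w : ℕ → ℝ) (hw : ∀ t, 0 ≤ w t)
    (hwv : ∀ q ∈ S, ∀ j < m, w (m * q + j) = v q) (c : ℝ)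
    (hblock : ∀ q ∈ S, c ≤ ∑ j ∈ range m, lamzI z ((N : ℤ) - ((m * q + j : ℕ) : ℤ))) :
    (∑ q ∈ S, v q) * c ≤ ∑ t ∈ Icc 1 x, w t * lamzI z ((N : ℤ) - t) := by
  classical
  have hinj : Set.InjOn (fun a : ℕ × ℕ => m * a.1 + a.2) ((S ×ˢ range m : Finset (ℕ × ℕ)) : Set (ℕ × ℕ)) := by
    rintro ⟨q, j⟩ h ⟨q', j'⟩ h' he
    rw [mem_coe, mem_product, mem_range] at h h'
    simp only at h h' he
    have h1 : (m * q + j) / m = q := by
      rw [Nat.mul_add_div (by omega), Nat.div_eq_of_lt h.2, add_zero]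
    have h2 : (m * q' + j') / m = q' := by
      rw [Nat.mul_add_div (by omega), Nat.div_eq_of_lt h'.2, add_zero]
    have h3 : q = q' := by rw [← h1, ← h2, he]
    subst h3
    have h4 : j = j' := by omega
    rw [h4]
  calc (∑ q ∈ S, v q) * c = ∑ q ∈ S, v q * c := by rw [sum_mul]
    _ ≤ ∑ q ∈ S, v q * ∑ j ∈ range m, lamzI z ((N : ℤ) - ((m * q + j : ℕ) : ℤ)) :=
        sum_le_sum fun q hq => mul_le_mul_of_nonneg_left (hblock q hq) (hv q)
    _ = ∑ q ∈ S, ∑ j ∈ range m, w (m * q + j) * lamzI z ((N : ℤ) - ((m * q + j : ℕ) : ℤ)) := by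
        apply sum_congr rfl
        intro q hq
        rw [mul_sum]
        apply sum_congr rfl
        intro j hj
        rw [hwv q hq j (mem_range.1 hj)]
    _ = ∑ a ∈ S ×ˢ range m, w (m * a.1 + a.2) * lamzI z ((N : ℤ) - ((m * a.1 + a.2 : ℕ) : ℤ)) := by
        rw [sum_product]
    _ = ∑ t ∈ (S ×ˢ range m).image (fun a => m * a.1 + a.2), w t * lamzI z ((N : ℤ) - t) := by
        rw [sum_image hinj]
    _ ≤ _ := by
        apply sum_le_sum_of_subset_of_nonneg
        · intro t ht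
          rw [mem_image] at ht
          obtain ⟨⟨q, j⟩, h, rfl⟩ := ht
          rw [mem_product, mem_range] at h
          simp only at h ⊢
          obtain ⟨h1, h2⟩ := hS q h.1
          have h3 : m * q ≤ m * Q := Nat.mul_le_mul_left m h2
          have h4 : 1 ≤ m * q := Nat.mul_pos (by omega) (by omega)
          rw [mul_add, mul_one] at hQx
          rw [mem_Icc]
          omega
        · intro t _ _
          exact mul_nonneg (hw t) (lamzI_nonneg _ _)

/-- the choice of `z` -/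
theorem z_facts' (L : ℝ) (B z0 : ℕ) (hL : 4 + (z0 : ℝ) ≤ L) : L ^ B ≤ ((⌈L ^ B⌉₊ + 2 + z0 : ℕ) : ℝ) ∧
    ((⌈L ^ B⌉₊ + 2 + z0 : ℕ) : ℝ) ≤ L ^ (B + 1) := by
  have h0 : (0 : ℝ) ≤ z0 := Nat.cast_nonneg _
  have h1 : 1 ≤ L ^ B := one_le_pow₀ (by linarith)
  have h2 : L ^ B ≤ (⌈L ^ B⌉₊ : ℝ) := Nat.le_ceil _
  have h3 : (⌈L ^ B⌉₊ : ℝ) < L ^ B + 1 := Nat.ceil_lt_add_one (by positivity)
  push_cast
  constructor
  · linarith
  · calc (⌈L ^ B⌉₊ : ℝ) + 2 + z0 ≤ L ^ B * (4 + z0) := by nlinarith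
      _ ≤ L ^ B * L := mul_le_mul_of_nonneg_left hL (by positivity)
      _ = L ^ (B + 1) := by rw [pow_succ]

open Classical in
/-- large slopes -/
theorem reg2 (U : ℕ) : ∃ A x0 : ℕ, ∀ x : ℕ, x0 ≤ x → ∀ m : ℕ, Real.log x ^ A ≤ m →
    (((Ioc (x / 2) x).filter (fun n : ℕ => 3 * m + 1 < n ∧ ¬ Rep m n)).card : ℝ) ≤ x / Real.log x ^ U := by
  obtain ⟨c0, hc0, hlow⟩ := aa_low
  obtain ⟨K, z0, hshort⟩ := short
  set U' := U + 9 with hU'
  obtain ⟨B0, hexc⟩ := exc U'
  obtain ⟨x1, h1⟩ := hexc (B0 + 1)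
  obtain ⟨Q0, h2⟩ := hlow 1
  obtain ⟨n1, hn1⟩ := ev_L' (32 / c0 + 16 * (Q0 + 9) + 8 + z0)
  refine ⟨(B0 + 1) * (K + 1), x1 + n1 + 16, fun x hx m hmA => ?_⟩
  have hL' := hn1 x (by omega)
  obtain ⟨L, hLd⟩ : ∃ L, L = Real.log x := ⟨_, rfl⟩
  rw [← hLd] at hL' hmA ⊢
  have hc8 : 0 < 32 / c0 := by positivity
  have hQ0r : (0 : ℝ) ≤ Q0 := Nat.cast_nonneg _
  have hz0r : (0 : ℝ) ≤ z0 := Nat.cast_nonneg _
  have hL8 : 8 ≤ L := by linarith
  have hL0 : 0 < L := by linarith
  have hL1 : 1 ≤ L := by linarith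
  have hx0 : (0 : ℝ) < x := by exact_mod_cast (by omega : 0 < x)
  obtain ⟨z, hz⟩ : ∃ z, z = ⌈L ^ B0⌉₊ + 2 + z0 := ⟨_, rfl⟩
  obtain ⟨hz1, hz2⟩ := z_facts' L B0 z0 (by linarith)
  rw [← hz] at hz1 hz2
  have hm1 : 1 ≤ m := by
    have h3 : (1 : ℝ) ≤ m := (one_le_pow₀ hL1).trans hmA
    exact_mod_cast h3
  have hm0 : (0 : ℝ) < m := by exact_mod_cast (by omega : 0 < m)
  have hzK : z ^ K ≤ m := by
    have h3 : ((z ^ K : ℕ) : ℝ) ≤ m := by
      push_cast
      calc (z : ℝ) ^ K ≤ (L ^ (B0 + 1)) ^ K := pow_le_pow_left₀ (Nat.cast_nonneg _) hz2 K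
        _ = L ^ ((B0 + 1) * K) := by rw [← pow_mul]
        _ ≤ L ^ ((B0 + 1) * (K + 1)) := pow_le_pow_right₀ hL1 (Nat.mul_le_mul_left _ (by omega))
        _ ≤ m := hmA
    exact_mod_cast h3
  -- blocks
  have hblock : ∀ N q : ℕ, m * q + m ≤ N → (m : ℝ) / 4 ≤ ∑ j ∈ range m, lamzI z ((N : ℤ) - ((m * q + j : ℕ) : ℤ)) := by
    intro N q hq
    have h3 := hshort z (by omega) m hzK (N - m * q) (by omega)
    refine h3.trans (le_of_eq ?_)
    apply sum_congr rfl
    intro j _
    congr 1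
    have h4 : m * q ≤ N := by omega
    push_cast [Nat.cast_sub h4]
    ring
  -- the conclusion from a model
  have key : ∀ w : ℕ → ℝ, (∀ t, 0 ≤ w t) → (∀ t ∈ Icc 1 x, w t ≤ L) →
      (∀ N : ℕ, x / 2 < N → 3 * m + 1 < N → N ≤ x →
        (x : ℝ) / L ^ U' < ∑ t ∈ Icc 1 x, w t * lamzI z ((N : ℤ) - t)) →
      (∀ t, 0 < w t → (t / m).Prime ∧ ((t / m) ^ 2 - 2).primeFactorsList.length ≤ 5) →
      (((Ioc (x / 2) x).filter (fun n : ℕ => 3 * m + 1 < n ∧ ¬ Rep m n)).card : ℝ) ≤ x / L ^ U := by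
    intro w hw0 hwL hmod hrep
    have hcard := h1 x (by omega) z (by rw [← hLd]; exact hz1) (by rw [← hLd]; exact hz2) w (fun t ht => by
      rw [abs_of_nonneg (hw0 t), ← hLd]
      exact hwL t ht)
    rw [← hLd] at hcard
    have hsub : (Ioc (x / 2) x).filter (fun n : ℕ => 3 * m + 1 < n ∧ ¬ Rep m n) ⊆ EX w z x U' := by
      intro n hn
      rw [mem_filter, mem_Ioc] at hn
      obtain ⟨⟨hn1, hn2⟩, hn3, hn4⟩ := hn
      by_contra hE
      apply hn4
      have h3 := hmod n hn1 hn3 hn2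
      rw [hLd] at h3
      obtain ⟨t, ht, ht1, ht2⟩ := pos_ex w z x U' n hw0 (mem_Icc.2 ⟨by omega, hn2⟩) hE h3
      rw [mem_Icc] at ht
      obtain ⟨g1, g2⟩ := hrep t ht1
      have h7 := ht2.pos
      refine ⟨((n : ℤ) - t).toNat, t / m, ht2, by omega, ?_, g1, g2⟩
      congr 1
      omega
    calc (((Ioc (x / 2) x).filter (fun n : ℕ => 3 * m + 1 < n ∧ ¬ Rep m n)).card : ℝ) ≤ (EX w z x U').card := by
          exact_mod_cast card_le_card hsub
      _ ≤ x / L ^ U' := hcard
      _ ≤ x / L ^ U := by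
          apply div_le_div_of_nonneg_left hx0.le (by positivity)
          exact pow_le_pow_right₀ hL1 (by omega)
  obtain ⟨Q, hQ⟩ : ∃ Q, Q = x / (4 * m) := ⟨_, rfl⟩
  have hmQ : 4 * (m * Q) ≤ x := by
    rw [hQ]
    have := Nat.mul_div_le x (4 * m)
    calc 4 * (m * (x / (4 * m))) = 4 * m * (x / (4 * m)) := by ring
      _ ≤ x := this
  have hQlt : (x : ℝ) / (4 * m) < Q + 1 := by
    rw [hQ]
    have := Nat.lt_floor_add_one ((x : ℝ) / ((4 * m : ℕ) : ℝ))
    rw [Nat.floor_div_eq_div] at this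
    push_cast at this
    exact this
  rcases le_or_gt (Q0 + 8) Q with hQ8 | hQ8
  · -- many `q`
    have hmQ1 : m ≤ m * Q := Nat.le_mul_of_pos_right _ (by omega)
    have hmQ8 : 8 * m ≤ m * Q := by
      rw [mul_comm]
      exact Nat.mul_le_mul_left m (by omega)
    have hQge : (x : ℝ) / (8 * m) ≤ Q := by
      have h4 : (x : ℝ) / (4 * m) = x / (8 * m) + x / (8 * m) := by field_simp; ring
      have h5 : (8 : ℝ) ≤ Q := by exact_mod_cast (by omega : 8 ≤ Q)
      by_contra h6
      push Not at h6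
      linarith
    have hQ8r : (8 : ℝ) ≤ Q := by exact_mod_cast (by omega : 8 ≤ Q)
    have hQp : (0 : ℝ) < Q := by linarith
    have hQx : Q ≤ x := by
      rw [hQ]
      exact Nat.div_le_self _ _
    have hlQ2 : Real.log Q ≤ L := by
      rw [hLd]
      exact Real.log_le_log hQp (by exact_mod_cast hQx)
    have hlQ0 : 2 ≤ Real.log Q := by
      rw [Real.le_log_iff_exp_le hQp]
      have h8 : Real.exp 2 = Real.exp 1 * Real.exp 1 := by rw [← Real.exp_add]; norm_num
      have := Real.exp_one_lt_d9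
      have := Real.exp_pos 1
      rw [h8]
      nlinarith
    refine key (fun t => if t / m ≤ Q then aa Q (t / m) else 0) (fun t => ?_) (fun t ht => ?_)
      (fun N hN1 hN2 hN3 => ?_) (fun t ht => ?_)
    · split_ifs
      · exact aa_nonneg _ _
      · exact le_rfl
    · rw [mem_Icc] at ht
      split_ifs with h3
      · refine (aa_le Q (t / m)).trans ?_
        rcases Nat.eq_zero_or_pos (t / m) with h4 | h4
        · rw [h4, Nat.cast_zero, Real.log_zero]
          exact hL0.le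
        · rw [hLd]
          apply Real.log_le_log (by exact_mod_cast h4)
          exact_mod_cast (Nat.div_le_self t m).trans ht.2
      · exact hL0.le
    · obtain ⟨E, hE⟩ : ∃ E : ℕ → ℕ → Prop, ∀ p n : ℕ, ¬ E p n := ⟨fun _ _ => False, fun _ _ => not_false⟩
      have h3 := h2 Q (by omega) 2 le_rfl (by push_cast; rw [pow_one]; exact hlQ0) E
        (fun p n => iff_of_false (hE p n) (hE p _))
        (fun p _ => by
          have : (range p).filter (fun r => ¬ p ∣ r ∧ E p r) = ∅ := by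
            apply filter_eq_empty_iff.2
            rintro r _ ⟨_, h⟩
            exact hE p r h
          rw [this]
          simp) (fun p hp hp2 => by
          refine ⟨1, fun h => hp.one_lt.ne' (Nat.dvd_one.1 h), fun h => ?_, hE p 1⟩
          have e : (((1 : ℕ) : ℤ)) ^ 2 - 2 = -1 := by norm_num
          rw [e, dvd_neg] at h
          exact (Nat.prime_iff_prime_int.1 hp).not_isUnit (isUnit_of_dvd_one h))
      have e3 : (Icc 1 Q).filter (fun n : ℕ => ∀ p ∈ pz 2, ¬ E p n) = Icc 1 Q := by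
        apply filter_true_of_mem
        intro n _ p _
        exact hE p n
      have h3' : c0 * (Q / Real.log Q ^ 8) ≤ ∑ n ∈ Icc 1 Q, aa Q n := by
        rw [e3] at h3
        exact h3
      have h4 := block_low m Q x N z hm1 (aa Q) (aa_nonneg Q) (Icc 1 Q) (fun q hq => mem_Icc.1 hq)
        (by rw [mul_add, mul_one]; omega) (fun t => if t / m ≤ Q then aa Q (t / m) else 0) (fun t => by
          split_ifs
          · exact aa_nonneg _ _
          · exact le_rfl) (fun q hq j hj => by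
          have h5 : (m * q + j) / m = q := by
            rw [Nat.mul_add_div (by omega), Nat.div_eq_of_lt hj, add_zero]
          rw [h5, if_pos (mem_Icc.1 hq).2]) (m / 4) (fun q hq => by
          apply hblock
          have h5 : m * q ≤ m * Q := Nat.mul_le_mul_left m (mem_Icc.1 hq).2
          omega)
      refine lt_of_lt_of_le ?_ h4
      have h5 : c0 * (x / (8 * m) / L ^ 8) ≤ c0 * (Q / Real.log Q ^ 8) := by
        apply mul_le_mul_of_nonneg_left _ hc0.le
        apply div_le_div₀ hQp.le hQge (by positivity)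
        exact pow_le_pow_left₀ (by linarith) hlQ2 8
      have h6 : c0 * (x / (8 * m) / L ^ 8) * (m / 4) ≤ (∑ n ∈ Icc 1 Q, aa Q n) * (m / 4) :=
        mul_le_mul_of_nonneg_right (h5.trans h3') (by positivity)
      refine lt_of_lt_of_le ?_ h6
      have h7 : c0 * (x / (8 * m) / L ^ 8) * (m / 4) = (c0 / 32 * L * L ^ U) * (x / L ^ U') := by
        rw [hU', pow_add]
        field_simp
        ring
      rw [h7]
      apply lt_mul_of_one_lt_left (by positivity)
      have h8 : 32 / c0 < L := by linarith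
      rw [div_lt_iff₀ hc0] at h8
      have h9 : 1 < c0 / 32 * L := by
        rw [div_mul_eq_mul_div, lt_div_iff₀ (by norm_num)]
        linarith
      calc (1 : ℝ) < c0 / 32 * L := h9
        _ ≤ c0 / 32 * L * L ^ U := le_mul_of_one_le_right (by positivity) (one_le_pow₀ hL1)
    · split_ifs at ht with h3
      · exact aa_pos Q (t / m) h3 ht
      · exact absurd ht (lt_irrefl _)
  · -- `q = 2`
    refine key (fun t => if t / m = 2 then 1 else 0) (fun t => ?_) (fun t _ => ?_)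
      (fun N hN1 hN2 hN3 => ?_) (fun t ht => ?_)
    · split_ifs <;> norm_num
    · split_ifs
      · exact hL1
      · exact hL0.le
    · have h4 := block_low m 2 x N z hm1 (fun _ => 1) (fun _ => by norm_num) {2} (fun q hq => by
          rw [mem_singleton] at hq
          omega)
        (by omega) (fun t => if t / m = 2 then 1 else 0) (fun t => by
          split_ifs <;> norm_num) (fun q hq j hj => by
          rw [mem_singleton] at hq
          have h5 : (m * q + j) / m = q := by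
            rw [Nat.mul_add_div (by omega), Nat.div_eq_of_lt hj, add_zero]
          rw [h5, if_pos hq]) (m / 4) (fun q hq => by
          apply hblock
          rw [mem_singleton] at hq
          rw [hq]
          omega)
      refine lt_of_lt_of_le ?_ h4
      rw [sum_singleton, one_mul]
      have h5 : (x : ℝ) / (4 * m) < Q0 + 9 := by
        have h6 : (Q : ℝ) < Q0 + 8 := by exact_mod_cast hQ8
        linarith
      rw [div_lt_iff₀ (by positivity)] at h5
      rw [div_lt_iff₀ (by positivity)]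
      have h6 : L ≤ L ^ U' := le_self_pow₀ hL1 (by omega)
      have h7 : 16 * ((Q0 : ℝ) + 9) ≤ L := by linarith
      calc (x : ℝ) < (Q0 + 9) * (4 * m) := h5
        _ = (m / 4) * (16 * (Q0 + 9)) := by ring
        _ ≤ (m / 4) * L ^ U' := mul_le_mul_of_nonneg_left (h7.trans h6) (by positivity)
    · split_ifs at ht with h3
      · rw [h3]
        refine ⟨Nat.prime_two, ?_⟩
        have e : (2 ^ 2 - 2 : ℕ) = 2 := by norm_num
        rw [e, Nat.primeFactorsList_prime Nat.prime_two]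
        simp
      · exact absurd ht (lt_irrefl _)

end Pool.Agent.J4H70.PA
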