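import Pool.Agent.J4H70.PA.Low2
import Pool.Agent.Y882.GW.Sq2

/-! The weights attached to the primes `n` for which `n ^ 2 - 2` has at most five prime factors. -/

set_option autoImplicit false

namespace Pool.Agent.J4H70.PA

open Finset Filter
open Pool.Agent.H373R2.T7
open Pool.Agent.W23.DC
open Pool.Agent.Y882
open Pool.Agent.Y882.KW
open Pool.Agent.Y882.GW (pr_sq)
open Pool.Agent.Y882.PX (pr_mem)

theorem W5_le_one (Y N : ℕ) : W5 Y N ≤ 1 := by
  classical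
  unfold W5 WW
  have h1 : 0 ≤ ∑ q ∈ pr Y (3 / 50) (11 / 50), ((11 / 16 : ℝ) - 11 / 16 / (11 / 50) * tt Y q) * (if q ∣ N then 1 else 0) := by
    apply sum_nonneg
    intro q hq
    unfold pr at hq
    rw [mem_filter] at hq
    apply mul_nonneg
    · have h2 := hq.2.2.2
      have h3 : (11 / 16 : ℝ) / (11 / 50) * tt Y q ≤ 11 / 16 / (11 / 50) * (11 / 50) :=
        mul_le_mul_of_nonneg_left h2.le (by norm_num)
      norm_num at h3 ⊢
      linarith
    · split_ifs <;> norm_num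
  split_ifs
  · linarith
  · rw [zero_mul]
    norm_num

/-- no squares of medium primes divide `n ^ 2 - 2` -/
def Sqf (Y n : ℕ) : Prop := ∀ p ∈ pr Y (3 / 50) (11 / 50), ¬ p ^ 2 ∣ n ^ 2 - 2

open Classical in
/-- the weight of `n ≤ Q` -/
noncomputable def aa (Q n : ℕ) : ℝ :=
  if n.Prime ∧ Sqf (Q ^ 2) n then Real.log n * max 0 (W5 (Q ^ 2) (n ^ 2 - 2)) else 0

theorem aa_nonneg (Q n : ℕ) : 0 ≤ aa Q n := by
  unfold aa
  split_ifs
  · exact mul_nonneg (Real.log_natCast_nonneg n) (le_max_left _ _)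
  · exact le_rfl

theorem aa_le (Q n : ℕ) : aa Q n ≤ Real.log n := by
  unfold aa
  split_ifs
  · calc Real.log n * max 0 (W5 (Q ^ 2) (n ^ 2 - 2)) ≤ Real.log n * 1 := by
          apply mul_le_mul_of_nonneg_left _ (Real.log_natCast_nonneg n)
          exact max_le (by norm_num) (W5_le_one _ _)
      _ = _ := mul_one _
  · exact Real.log_natCast_nonneg n

/-- a positive weight gives an almost prime -/
theorem aa_pos (Q n : ℕ) (hn : n ≤ Q) (h : 0 < aa Q n) :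
    n.Prime ∧ (n ^ 2 - 2).primeFactorsList.length ≤ 5 := by
  unfold aa at h
  split_ifs at h with h1
  · refine ⟨h1.1, ?_⟩
    have h2 : 0 < W5 (Q ^ 2) (n ^ 2 - 2) := by
      by_contra h3
      push Not at h3
      rw [max_eq_left h3, mul_zero] at h
      exact lt_irrefl _ h
    have hn2 := h1.1.two_le
    have h4 : 4 ≤ n ^ 2 := by nlinarith
    have h6 : n ^ 2 ≤ Q ^ 2 := Nat.pow_le_pow_left hn 2
    have h5 := almost (Q ^ 2) (by omega) (3 / 50) (11 / 50) (11 / 16) 1 5 (by norm_num) (by norm_num) (by norm_num)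
      (by norm_num) (by norm_num) (n ^ 2 - 2) (by omega) (by
        rw [Real.rpow_one]
        have h7 : n ^ 2 - 2 ≤ Q ^ 2 := by omega
        exact_mod_cast h7) h2 h1.2
    exact h5.1
  · exact absurd h (lt_irrefl _)

/-- the number of the `n` for which `p ^ 2` divides `n ^ 2 - 2` -/
theorem sq_count (p Q : ℕ) (hp : p.Prime) (h3 : 3 ≤ p) :
    (((Icc 2 Q).filter (fun n => p ^ 2 ∣ n ^ 2 - 2)).card : ℝ) ≤ 2 * ((Q : ℝ) / (p : ℝ) ^ 2 + 1) := by
  classical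
  have hp2 : 1 ≤ p ^ 2 := Nat.one_le_pow _ _ hp.pos
  rcases ((Icc 2 Q).filter (fun n => p ^ 2 ∣ n ^ 2 - 2)).eq_empty_or_nonempty with h | ⟨m, hm⟩
  · rw [h, card_empty, Nat.cast_zero]
    positivity
  · have hpp : Prime (p : ℤ) := Nat.prime_iff_prime_int.1 hp
    have hz : ∀ n ∈ (Icc 2 Q).filter (fun n => p ^ 2 ∣ n ^ 2 - 2), ((p : ℤ) ^ 2) ∣ (n : ℤ) ^ 2 - 2 := by
      intro n hn
      rw [mem_filter, mem_Icc] at hn
      have h4 : 2 ≤ n ^ 2 := by nlinarith [hn.1.1]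
      have h5 : ((p ^ 2 : ℕ) : ℤ) ∣ ((n ^ 2 - 2 : ℕ) : ℤ) := by exact_mod_cast hn.2
      push_cast [Nat.cast_sub h4] at h5
      exact h5
    have hnp : ∀ n ∈ (Icc 2 Q).filter (fun n => p ^ 2 ∣ n ^ 2 - 2), ¬ (p : ℤ) ∣ (n : ℤ) := by
      intro n hn hd
      have h4 := hz n hn
      have h5 : (p : ℤ) ∣ (n : ℤ) ^ 2 - 2 := (dvd_pow_self _ (by norm_num)).trans h4
      have h6 : (p : ℤ) ∣ 2 := by
        have := dvd_sub (dvd_pow hd (show (2 : ℕ) ≠ 0 by norm_num)) h5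
        have e : (n : ℤ) ^ 2 - ((n : ℤ) ^ 2 - 2) = 2 := by ring
        rwa [e] at this
      have h7 : p ∣ 2 := by exact_mod_cast h6
      have := Nat.le_of_dvd (by norm_num) h7
      omega
    obtain ⟨m', hm'⟩ : ∃ m' : ℕ, ((p ^ 2 : ℕ) : ℤ) ∣ (m' : ℤ) + m := by
      refine ⟨p ^ 2 * m - m, ?_⟩
      have h4 : m ≤ p ^ 2 * m := Nat.le_mul_of_pos_left _ hp2
      rw [Nat.cast_sub h4]
      push_cast
      exact ⟨m, by ring⟩
    have hsub : (Icc 2 Q).filter (fun n => p ^ 2 ∣ n ^ 2 - 2) ⊆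
        (Icc 1 Q).filter (fun n => n ≡ m [MOD p ^ 2]) ∪ (Icc 1 Q).filter (fun n => n ≡ m' [MOD p ^ 2]) := by
      intro n hn
      have h4 := hz n hn
      have h5 := hz m hm
      have h6 : ((p : ℤ) ^ 2) ∣ ((n : ℤ) - m) * (n + m) := by
        have := dvd_sub h4 h5
        have e : (n : ℤ) ^ 2 - 2 - ((m : ℤ) ^ 2 - 2) = (n - m) * (n + m) := by ring
        rwa [e] at this
      have hn1 := mem_filter.1 hn
      rw [mem_Icc] at hn1
      rw [mem_union, mem_filter, mem_filter, mem_Icc]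
      by_cases h7 : (p : ℤ) ∣ (n : ℤ) + m
      · right
        have h8 : ¬ (p : ℤ) ∣ (n : ℤ) - m := by
          intro h9
          have h10 : (p : ℤ) ∣ 2 * n := by
            have := dvd_add h9 h7
            have e : (n : ℤ) - m + (n + m) = 2 * n := by ring
            rwa [e] at this
          rcases hpp.dvd_or_dvd h10 with h11 | h11
          · have h12 : p ∣ 2 := by exact_mod_cast h11
            have := Nat.le_of_dvd (by norm_num) h12
            omega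
          · exact hnp n hn h11
        have h9 : ((p : ℤ) ^ 2) ∣ (n : ℤ) + m := by
          have hcop : IsCoprime ((p : ℤ) ^ 2) ((n : ℤ) - m) :=
            (hpp.coprime_iff_not_dvd.2 h8).pow_left
          exact hcop.dvd_of_dvd_mul_left h6
        refine ⟨⟨by omega, hn1.1.2⟩, ?_⟩
        rw [Nat.modEq_iff_dvd]
        have h10 := dvd_sub hm' (show (((p ^ 2 : ℕ) : ℤ)) ∣ (n : ℤ) + m by push_cast; exact h9)
        have e : (m' : ℤ) + m - (n + m) = m' - n := by ring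
        rwa [e] at h10
      · left
        have h9 : ((p : ℤ) ^ 2) ∣ (n : ℤ) - m := by
          have hcop : IsCoprime ((p : ℤ) ^ 2) ((n : ℤ) + m) :=
            (hpp.coprime_iff_not_dvd.2 h7).pow_left
          exact hcop.dvd_of_dvd_mul_right h6
        refine ⟨⟨by omega, hn1.1.2⟩, ?_⟩
        rw [Nat.modEq_iff_dvd]
        have h10 : (((p ^ 2 : ℕ) : ℤ)) ∣ -((n : ℤ) - m) := by
          rw [dvd_neg]
          push_cast
          exact h9
        have e : -((n : ℤ) - m) = m - n := by ring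
        rwa [e] at h10
    have hc := card_le_card hsub
    have hc2 := hc.trans (card_union_le _ _)
    have h4 := H343E.card_mod Q (p ^ 2) m hp2
    have h5 := H343E.card_mod Q (p ^ 2) m' hp2
    have h6 : (((Icc 2 Q).filter (fun n => p ^ 2 ∣ n ^ 2 - 2)).card : ℝ) ≤
        (((Icc 1 Q).filter (fun n => n ≡ m [MOD p ^ 2])).card : ℝ) +
          (((Icc 1 Q).filter (fun n => n ≡ m' [MOD p ^ 2])).card : ℝ) := by exact_mod_cast hc2
    push_cast at h4 h5
    linarith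

open Classical in
/-- the bad `n` contribute little -/
theorem bad_sum : ∃ Q0 : ℕ, ∀ Q : ℕ, Q0 ≤ Q → ∀ z : ℕ, z ≤ Q →
    ∑ n ∈ (Icc 1 Q).filter (fun n => ¬ (n.Prime ∧ z < n ∧ Sqf (Q ^ 2) n)), ArithmeticFunction.vonMangoldt n ≤
      2 * √Q * Real.log Q + z * Real.log Q + Real.log Q * (4 * (Q : ℝ) ^ (22 / 25 : ℝ) + 2 * (Q : ℝ) ^ (11 / 25 : ℝ)) := by
  obtain ⟨Y0, hY0⟩ := pr_sq (3 / 50) (11 / 50) (by norm_num) (by norm_num)
  have ev1 : ∀ᶠ Q : ℕ in atTop, (3 : ℝ) ≤ (((Q : ℝ)) ^ 2) ^ (3 / 50 : ℝ) := by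
    have h1 : Tendsto (fun Q : ℕ => ((Q : ℝ)) ^ 2) atTop atTop :=
      (tendsto_pow_atTop (by norm_num)).comp tendsto_natCast_atTop_atTop
    exact ((tendsto_rpow_atTop (by norm_num : (0 : ℝ) < 3 / 50)).comp h1).eventually_ge_atTop _
  obtain ⟨Q1, hQ1⟩ := eventually_atTop.1 ev1
  refine ⟨Q1 + Y0 + 2, fun Q hQ z hz => ?_⟩
  have e1 := hQ1 Q (by omega)
  have hQ2 : 2 ≤ Q := by omega
  have hQQ : Q ≤ Q ^ 2 := Nat.le_self_pow (by norm_num) Q
  have hQr : (2 : ℝ) ≤ Q := by exact_mod_cast hQ2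
  have hQ0 : (0 : ℝ) < Q := by linarith
  have hLQ : 0 ≤ Real.log Q := Real.log_nonneg (by linarith)
  have hYr : (((Q ^ 2 : ℕ) : ℝ)) = (Q : ℝ) ^ 2 := by push_cast; rfl
  obtain ⟨s1, s2⟩ := hY0 (Q ^ 2) (by omega)
  set P := pr (Q ^ 2) (3 / 50) (11 / 50) with hP
  -- three classes
  set A := (Icc 1 Q).filter (fun n => ¬ n.Prime) with hA
  set B := Icc 1 z with hB
  set C := P.biUnion (fun p => (Icc 2 Q).filter (fun n => p ^ 2 ∣ n ^ 2 - 2)) with hC
  have hΛ0 : ∀ n : ℕ, (0 : ℝ) ≤ ArithmeticFunction.vonMangoldt n := fun n => ArithmeticFunction.vonMangoldt_nonneg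
  have hΛQ : ∀ n ∈ Icc 1 Q, ArithmeticFunction.vonMangoldt n ≤ Real.log Q := by
    intro n hn
    rw [mem_Icc] at hn
    refine ArithmeticFunction.vonMangoldt_le_log.trans ?_
    exact Real.log_le_log (by exact_mod_cast hn.1) (by exact_mod_cast hn.2)
  have hsub : (Icc 1 Q).filter (fun n => ¬ (n.Prime ∧ z < n ∧ Sqf (Q ^ 2) n)) ⊆ A ∪ (B ∪ C) := by
    intro n hn
    rw [mem_filter, mem_Icc] at hn
    obtain ⟨⟨h1, h2⟩, h3⟩ := hn
    rw [mem_union, mem_union]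
    by_cases h4 : n.Prime
    · right
      rcases Nat.lt_or_ge z n with h5 | h5
      · right
        have h6 : ¬ Sqf (Q ^ 2) n := fun h => h3 ⟨h4, h5, h⟩
        unfold Sqf at h6
        push Not at h6
        obtain ⟨p, hp, hd⟩ := h6
        rw [hC, mem_biUnion]
        exact ⟨p, hp, mem_filter.2 ⟨mem_Icc.2 ⟨h4.two_le, h2⟩, hd⟩⟩
      · left
        rw [hB, mem_Icc]
        exact ⟨h1, h5⟩
    · left
      rw [hA, mem_filter, mem_Icc]
      exact ⟨⟨h1, h2⟩, h4⟩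
  have hAs : ∑ n ∈ A, ArithmeticFunction.vonMangoldt n ≤ 2 * √Q * Real.log Q := by
    have h1 := Chebyshev.psi_sub_theta_eq_sum_not_prime (Q : ℝ)
    have h2 := Chebyshev.psi_sub_theta_le (x := (Q : ℝ)) (by linarith)
    rw [h1, Nat.floor_natCast] at h2
    exact h2
  have hBs : ∑ n ∈ B, ArithmeticFunction.vonMangoldt n ≤ z * Real.log Q := by
    calc ∑ n ∈ B, ArithmeticFunction.vonMangoldt n ≤ ∑ _n ∈ B, Real.log Q := by
          apply sum_le_sum
          intro n hn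
          rw [hB, mem_Icc] at hn
          exact hΛQ n (mem_Icc.2 ⟨hn.1, hn.2.trans hz⟩)
      _ = z * Real.log Q := by
          rw [sum_const, nsmul_eq_mul, hB, Nat.card_Icc, Nat.add_sub_cancel]
  have hCc : (C.card : ℝ) ≤ 4 * (Q : ℝ) ^ (22 / 25 : ℝ) + 2 * (Q : ℝ) ^ (11 / 25 : ℝ) := by
    have h1 : (C.card : ℝ) ≤ ∑ p ∈ P, 2 * ((Q : ℝ) / (p : ℝ) ^ 2 + 1) := by
      calc (C.card : ℝ) ≤ ((∑ p ∈ P, ((Icc 2 Q).filter (fun n => p ^ 2 ∣ n ^ 2 - 2)).card : ℕ) : ℝ) := by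
            exact_mod_cast card_biUnion_le
        _ = ∑ p ∈ P, (((Icc 2 Q).filter (fun n => p ^ 2 ∣ n ^ 2 - 2)).card : ℝ) := by push_cast; rfl
        _ ≤ _ := by
            apply sum_le_sum
            intro p hp
            obtain ⟨k1, k2, k3⟩ := pr_mem (Q ^ 2) p _ _ (by omega) hp
            have k4 : 3 ≤ p := by
              have : (3 : ℝ) ≤ p := by
                rw [hYr] at k2
                exact e1.trans k2
              exact_mod_cast this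
            exact sq_count p Q k1 k4
    have h2 : ∑ p ∈ P, 2 * ((Q : ℝ) / (p : ℝ) ^ 2 + 1) = 2 * Q * ∑ p ∈ P, 1 / (p : ℝ) ^ 2 + 2 * (P.card : ℝ) := by
      have e : ∀ p ∈ P, 2 * ((Q : ℝ) / (p : ℝ) ^ 2 + 1) = 2 * Q * (1 / (p : ℝ) ^ 2) + 2 := by
        intro p _
        ring
      rw [sum_congr rfl e, sum_add_distrib, ← mul_sum, sum_const, nsmul_eq_mul]
      ring
    have h3 : (((Q ^ 2 : ℕ) : ℝ)) ^ (3 / 50 : ℝ) = (Q : ℝ) ^ (3 / 25 : ℝ) := by
      rw [hYr, ← Real.rpow_natCast (Q : ℝ) 2, ← Real.rpow_mul hQ0.le]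
      norm_num
    have h4 : (((Q ^ 2 : ℕ) : ℝ)) ^ (11 / 50 : ℝ) = (Q : ℝ) ^ (11 / 25 : ℝ) := by
      rw [hYr, ← Real.rpow_natCast (Q : ℝ) 2, ← Real.rpow_mul hQ0.le]
      norm_num
    rw [h3] at s1
    rw [h4] at s2
    have h5 : 2 * (Q : ℝ) * (2 / (Q : ℝ) ^ (3 / 25 : ℝ)) = 4 * (Q : ℝ) ^ (22 / 25 : ℝ) := by
      have h6 : (Q : ℝ) = (Q : ℝ) ^ (22 / 25 : ℝ) * (Q : ℝ) ^ (3 / 25 : ℝ) := by
        rw [← Real.rpow_add hQ0]
        norm_num
      have h7 : (0 : ℝ) < (Q : ℝ) ^ (3 / 25 : ℝ) := by positivity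
      rw [mul_div_assoc', div_eq_iff h7.ne']
      linarith
    calc (C.card : ℝ) ≤ 2 * Q * ∑ p ∈ P, 1 / (p : ℝ) ^ 2 + 2 * (P.card : ℝ) := h1.trans (le_of_eq h2)
      _ ≤ 2 * Q * (2 / (Q : ℝ) ^ (3 / 25 : ℝ)) + 2 * (Q : ℝ) ^ (11 / 25 : ℝ) := by
          apply add_le_add
          · exact mul_le_mul_of_nonneg_left s1 (by positivity)
          · exact mul_le_mul_of_nonneg_left s2 (by norm_num)
      _ = _ := by rw [h5]
  have hCs : ∑ n ∈ C, ArithmeticFunction.vonMangoldt n ≤ Real.log Q * (4 * (Q : ℝ) ^ (22 / 25 : ℝ) + 2 * (Q : ℝ) ^ (11 / 25 : ℝ)) := by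
    calc ∑ n ∈ C, ArithmeticFunction.vonMangoldt n ≤ ∑ _n ∈ C, Real.log Q := by
          apply sum_le_sum
          intro n hn
          rw [hC, mem_biUnion] at hn
          obtain ⟨p, _, hn⟩ := hn
          rw [mem_filter, mem_Icc] at hn
          exact hΛQ n (mem_Icc.2 ⟨by omega, hn.1.2⟩)
      _ = Real.log Q * C.card := by rw [sum_const, nsmul_eq_mul, mul_comm]
      _ ≤ _ := mul_le_mul_of_nonneg_left hCc hLQ
  calc ∑ n ∈ (Icc 1 Q).filter (fun n => ¬ (n.Prime ∧ z < n ∧ Sqf (Q ^ 2) n)), ArithmeticFunction.vonMangoldt n ≤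
      ∑ n ∈ A ∪ (B ∪ C), ArithmeticFunction.vonMangoldt n :=
        sum_le_sum_of_subset_of_nonneg hsub (fun n _ _ => hΛ0 n)
    _ ≤ ∑ n ∈ A, ArithmeticFunction.vonMangoldt n + ∑ n ∈ B ∪ C, ArithmeticFunction.vonMangoldt n := by
        rw [← sum_union_inter]
        have : 0 ≤ ∑ n ∈ A ∩ (B ∪ C), ArithmeticFunction.vonMangoldt n := sum_nonneg fun n _ => hΛ0 n
        linarith
    _ ≤ ∑ n ∈ A, ArithmeticFunction.vonMangoldt n + (∑ n ∈ B, ArithmeticFunction.vonMangoldt n +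
        ∑ n ∈ C, ArithmeticFunction.vonMangoldt n) := by
        apply add_le_add le_rfl
        rw [← sum_union_inter (s₁ := B)]
        have : 0 ≤ ∑ n ∈ B ∩ C, ArithmeticFunction.vonMangoldt n := sum_nonneg fun n _ => hΛ0 n
        linarith
    _ ≤ _ := by linarith

end Pool.Agent.J4H70.PA
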